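import Mathlib
import Pool.Agent.Helper734.TP.Defs
import Pool.Agent.Helper734.TP.Lib

set_option autoImplicit false

/-!
# MP_fbd3e7_an: bijectivity of `f ↦ P*(D)(P f)` if the exponents of `P` lie on a line

Let the exponents of `P` be among the points `s + (N-j)α + jβ`, `0 ≤ j ≤ N`. Along a line in the
direction `β - α` the equation `T_P f = g` is a linear recurrence for `γ! (P f)_γ`.

If `β - α` has entries of both signs the lines meet `ℕ^n` in finite segments, on which `T_P` is a
positive operator for the Fischer product. The entries of its inverse are bounded exponentially: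
the energy estimate gives `γ! |(P u)_γ| ≤ C^|γ| κ!` next to `κ` for `T_P u = z^κ`, the recurrence
spreads this bound over the whole segment, division by `P` and the log-convexity of `γ ↦ γ!` on the
segment give `|u_γ| ≤ C^|γ| κ!/γ!`, and by the symmetry of `T_P` the entries of the inverse are
bounded by `C^|γ|`.

If `β - α` has one sign, the lines are rays. Injectivity: `γ! |(P f)_γ|` grows at most
exponentially if `T_P f = 0`, so that `∑ γ! |(P f)_γ|^2` converges on the ray and is zero.
Surjectivity on a ray: the recurrence has an affine space of solutions of dimension `N`, division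
by `P` gives `N` conditions, and they are independent by the injectivity. The bounds are uniform in
the ray: for a given polydisc the leading term of `T_P` dominates on all rays but finitely many
types.
-/

namespace Pool.Agent.Results.MP_fbd3e7_an.LineExponents

open Pool.Agent.Helper734.TP

/-- entire functions on `ℂ^n` -/
def Entire (n : ℕ) : Set ((Fin n → ℂ) → ℂ) := {f | Differentiable ℂ f}

theorem bijOn_of {n : ℕ} (P : MvPolynomial (Fin n) ℂ)
    (h : (∀ f : (Fin n → ℂ) → ℂ, Differentiable ℂ f → (∀ z, Tmap P f z = 0) → ∀ z, f z = 0) ∧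
      ∀ g : (Fin n → ℂ) → ℂ, Differentiable ℂ g →
        ∃ f : (Fin n → ℂ) → ℂ, Differentiable ℂ f ∧ Tmap P f = g) :
    Set.BijOn (Tmap P) (Entire n) (Entire n) := by
  refine ⟨fun f hf => tp_diff P f hf, fun f hf g hg h1 => ?_, fun g hg => ?_⟩
  · have h2 := h.1 (fun z => f z - g z) (Differentiable.sub hf hg) (tp_sub P f g hf hg h1)
    funext z
    exact sub_eq_zero.1 (h2 z)
  · obtain ⟨f, hf, h1⟩ := h.2 g hg
    exact ⟨f, hf, h1⟩

theorem one_var (P : MvPolynomial (Fin 1) ℂ) :
    P = ∑ j ∈ Finset.range (P.totalDegree + 1),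
      MvPolynomial.monomial (0 + (P.totalDegree - j) • (0 : Fin 1 →₀ ℕ) +
        j • (Finsupp.single 0 1 : Fin 1 →₀ ℕ)) (P.coeff (Finsupp.single 0 j)) := by
  ext m
  have hm : m = Finsupp.single 0 (m 0) := by
    refine Finsupp.ext fun i => ?_
    have : i = 0 := Subsingleton.elim _ _
    subst this
    simp
  rw [MvPolynomial.coeff_sum]
  simp only [MvPolynomial.coeff_monomial, Finsupp.smul_single, smul_eq_mul, mul_one, smul_zero,
    zero_add]
  by_cases h : m 0 ∈ Finset.range (P.totalDegree + 1)
  · rw [Finset.sum_eq_single (m 0)]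
    · rw [← hm]; simp
    · intro j _ hj
      rw [if_neg]
      intro hc
      apply hj
      rw [← hc]; simp
    · intro h'; exact absurd h h'
  · rw [Finset.sum_eq_zero]
    · apply MvPolynomial.coeff_eq_zero_of_totalDegree_lt
      have h1 : P.totalDegree < m 0 := by
        simp only [Finset.mem_range, not_lt] at h
        omega
      refine lt_of_lt_of_le h1 ?_
      by_cases h0 : m 0 = 0
      · omega
      · exact Finset.single_le_sum (f := fun i => m i) (fun _ _ => Nat.zero_le _)
          (Finsupp.mem_support_iff.2 h0)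
    · intro j hj
      rw [if_neg]
      intro hc
      apply h
      rw [← hc]
      simpa using hj

/-- `T_P : f ↦ P*(D)(P f)` is a bijection of the entire functions onto the entire functions in the
following cases (`P ≠ 0`). (1) The exponents of `P` lie on a line:
`P = ∑ q_j z^(s + (N-j)α + jβ)`. (2) `n = 1`. (3) `n = 2` and `P` is quasi-homogeneous.
(4) `P Q`, if `P` and `Q` depend on different variables and `T_P`, `T_Q` are bijections.
(5) `P(U z + a)`, if `U` is unitary, `a ∈ ℂ^n` and `T_P` is a bijection.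
(6) For all `n` and all quasi-homogeneous `P ≠ 0` the map `T_P` is injective on the entire
functions. -/
theorem result :
    (∀ (n : ℕ) (s α β : Fin n →₀ ℕ) (N : ℕ) (q : ℕ → ℂ) (P : MvPolynomial (Fin n) ℂ), α ≠ β →
      P = ∑ j ∈ Finset.range (N + 1), MvPolynomial.monomial (s + (N - j) • α + j • β) (q j) →
      P ≠ 0 → Set.BijOn (Tmap P) (Entire n) (Entire n)) ∧
    (∀ P : MvPolynomial (Fin 1) ℂ, P ≠ 0 → Set.BijOn (Tmap P) (Entire 1) (Entire 1)) ∧
    (∀ (P : MvPolynomial (Fin 2) ℂ) (w : Fin 2 → ℕ) (p : ℕ), P ≠ 0 → (∀ i, 0 < w i) →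
      MvPolynomial.IsWeightedHomogeneous w P p → Set.BijOn (Tmap P) (Entire 2) (Entire 2)) ∧
    (∀ (n : ℕ) (P Q : MvPolynomial (Fin n) ℂ),
      (∀ l ∈ P.support, ∀ m ∈ Q.support, ∀ i, l i = 0 ∨ m i = 0) →
      Set.BijOn (Tmap P) (Entire n) (Entire n) → Set.BijOn (Tmap Q) (Entire n) (Entire n) →
      Set.BijOn (Tmap (P * Q)) (Entire n) (Entire n)) ∧
    (∀ (n : ℕ) (P : MvPolynomial (Fin n) ℂ) (U : Matrix (Fin n) (Fin n) ℂ) (a : Fin n → ℂ),
      U ∈ Matrix.unitaryGroup (Fin n) ℂ → Set.BijOn (Tmap P) (Entire n) (Entire n) →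
      Set.BijOn (Tmap (sub U a P)) (Entire n) (Entire n)) ∧
    (∀ (n : ℕ) (P : MvPolynomial (Fin n) ℂ) (w : Fin n → ℕ) (p : ℕ), P ≠ 0 → (∀ i, 0 < w i) →
      MvPolynomial.IsWeightedHomogeneous w P p → Set.InjOn (Tmap P) (Entire n)) := by
  refine ⟨fun n s α β N q P h hP hP0 => bijOn_of P (bij_line s α β h N q P hP hP0),
    fun P hP0 => bijOn_of P (bij_line 0 0 (Finsupp.single 0 1) (fun h => ?_) _ _ P
      (one_var P) hP0),
    fun P w p hP0 hw hP => ?_, fun n P Q h hP hQ => ?_,
    fun n P U a hU h => bij_affine U hU a P h, fun n P w p hP0 hw hP f hf g hg h1 => ?_⟩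
  · have := DFunLike.congr_fun h 0
    simp at this
  · obtain ⟨s, α, β, N, q, h, h1⟩ := qh_two P hP0 w hw p hP
    exact bijOn_of P (bij_line s α β h N q P h1 hP0)
  · exact (hP.comp hQ).congr fun f hf => (tp_mul P Q h f hf).symm
  · have h2 := result_qh P hP0 w hw p hP (fun z => f z - g z) (Differentiable.sub hf hg)
      (tp_sub P f g hf hg h1)
    funext z
    exact sub_eq_zero.1 (h2 z)

end Pool.Agent.Results.MP_fbd3e7_an.LineExponents
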