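import Mathlib
import Pool.Agent.Helper734.Tay

set_option autoImplicit false

/-!
# MP_fbd3e7_an: bijectivity of `f ↦ P*(D)(P f)` for polynomials in one monomial

Let `P = Q(z^a)`, `Q` of degree `N`. Along a ray `γ₀ + ℕ a` the equation `T_P f = g` is a linear
recurrence for `γ! (P f)_γ`. Injectivity: these numbers grow at most exponentially if `g = 0`, so
that `∑ γ! |(P f)_γ|^2` converges on the ray and is zero. Surjectivity on one ray: the recurrence
has an affine space of solutions of dimension `N`, division by `Q` gives `N` conditions and the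
injectivity shows that they are independent. The bounds of the solutions are uniform in the ray:
for a given polydisc, on all rays with large `γ₀` the leading term of `T_P` dominates.
-/

namespace Pool.Agent.Results.MP_fbd3e7_an.OneMonomial

/-- the partial derivative with respect to the `j`-th variable -/
noncomputable def pd {n : ℕ} (j : Fin n) (h : (Fin n → ℂ) → ℂ) : (Fin n → ℂ) → ℂ :=
  fun w => fderiv ℂ h w (Pi.single j (1 : ℂ) : Fin n → ℂ)

/-- `D^m g` -/
noncomputable def dpow {n : ℕ} (m : Fin n →₀ ℕ) (g : (Fin n → ℂ) → ℂ) : (Fin n → ℂ) → ℂ :=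
  (List.finRange n).foldr (fun (j : Fin n) (g : (Fin n → ℂ) → ℂ) => (pd j)^[m j] g) g

/-- `T_P f = P*(D)(P f)` -/
noncomputable def Tmap {n : ℕ} (P : MvPolynomial (Fin n) ℂ) (f : (Fin n → ℂ) → ℂ) :
    (Fin n → ℂ) → ℂ :=
  fun z => ∑ m ∈ P.support, (starRingEnd ℂ) (P.coeff m) *
    dpow m (fun w : Fin n → ℂ => MvPolynomial.eval w P * f w) z

/-- `f` is the sum of the everywhere convergent power series with coefficients `c` -/
def Ser {n : ℕ} (c : (Fin n → ℕ) → ℂ) (f : (Fin n → ℂ) → ℂ) : Prop :=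
  ∀ z, HasSum (fun α : Fin n → ℕ => c α * ∏ i, z i ^ α i) (f z)

/-- the coefficients of `P f` -/
noncomputable def mulc {n : ℕ} (P : MvPolynomial (Fin n) ℂ) (c : (Fin n → ℕ) → ℂ)
    (γ : Fin n → ℕ) : ℂ :=
  ∑ m ∈ P.support, if ∀ i, m i ≤ γ i then P.coeff m * c (fun i => γ i - m i) else 0

/-- `α!` -/
def fac {n : ℕ} (α : Fin n → ℕ) : ℕ := ∏ i, (α i).factorial

/-- the weight of a multi-index -/
def wt {n : ℕ} (w α : Fin n → ℕ) : ℕ := ∑ i, α i * w i

/-- decay faster than every exponential -/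
def Dec (b : ℕ → ℂ) : Prop := ∀ ρ : ℝ, 0 < ρ → ∃ M : ℝ, ∀ k, ‖b k‖ * ρ ^ k ≤ M

/-- decay faster than every exponential -/
def DecN {n : ℕ} (c : (Fin n → ℕ) → ℂ) : Prop :=
  ∀ ρ : ℝ, 0 < ρ → ∃ M : ℝ, ∀ α, ‖c α‖ * ρ ^ (∑ i, α i) ≤ M

/-- the coefficients of the product of the polynomial `q` and the power series `b` -/
noncomputable def cv (N : ℕ) (q b : ℕ → ℂ) (k : ℕ) : ℂ :=
  ∑ i ∈ Finset.range (N + 1), if i ≤ k then q i * b (k - i) else 0


/-- the Taylor series of an entire function of `n` variables, with Cauchy's estimates -/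
theorem taylor {n : ℕ} (f : (Fin n → ℂ) → ℂ) (hf : Differentiable ℂ f) :
    ∃ c : (Fin n → ℕ) → ℂ,
      (∀ ρ M : ℝ, 0 < ρ → (∀ z, ‖z‖ ≤ ρ → ‖f z‖ ≤ M) → ∀ α, ‖c α‖ * ρ ^ (∑ i, α i) ≤ M) ∧
      Ser c f := Pool.Agent.Helper734.Tay.taylor f hf

/-! ### jU -/

theorem jU_one_var (B : ℕ → ℂ) (h : ∀ s : ℂ, HasSum (fun k => s ^ k * B k) 0) (k : ℕ) : B k = 0 := by
  have h1 : HasFPowerSeriesAt (0 : ℂ → ℂ) (FormalMultilinearSeries.ofScalars ℂ B) 0 := by
    rw [hasFPowerSeriesAt_iff]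
    refine Filter.Eventually.of_forall fun z => ?_
    simpa [FormalMultilinearSeries.coeff_ofScalars] using h z
  have h2 := h1.eq_zero
  have h3 : (FormalMultilinearSeries.ofScalars ℂ B).coeff k = B k :=
    FormalMultilinearSeries.coeff_ofScalars
  rw [← h3, h2]
  rfl

/-- uniqueness of the coefficients -/
theorem ser_unique {n : ℕ} (c : (Fin n → ℕ) → ℂ) (h : Ser c (fun _ => 0)) (α : Fin n → ℕ) :
    c α = 0 := by
  induction n with
  | zero =>
    have h1 := h 0
    have h2 := hasSum_unique (fun α : Fin 0 → ℕ => c α * ∏ i, (0 : Fin 0 → ℂ) i ^ α i)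
    have h3 := h2.unique h1
    simp at h3
    rw [← h3]
    congr 1
    exact Subsingleton.elim _ _
  | succ n ih =>
    have hk : ∀ (z' : Fin n → ℂ) (s : ℂ), HasSum (fun p : ℕ × (Fin n → ℕ) =>
        s ^ p.1 * (c (Fin.cons p.1 p.2) * ∏ i, z' i ^ p.2 i)) 0 := by
      intro z' s
      have h1 := h (Fin.cons s z')
      rw [← (Fin.consEquiv (fun _ : Fin (n + 1) => ℕ)).hasSum_iff] at h1
      refine h1.congr_fun ?_
      intro p
      simp only [Function.comp_apply, Fin.consEquiv, Equiv.coe_fn_mk, Fin.prod_univ_succ,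
        Fin.cons_zero, Fin.cons_succ]
      ring
    have hsummable : ∀ (z' : Fin n → ℂ) (k : ℕ),
        Summable (fun β : Fin n → ℕ => c (Fin.cons k β) * ∏ i, z' i ^ β i) := by
      intro z' k
      have h1 := (hk z' 1).summable.prod_factor k
      simpa using h1
    have hB : ∀ (z' : Fin n → ℂ) (k : ℕ),
        ∑' β : Fin n → ℕ, c (Fin.cons k β) * ∏ i, z' i ^ β i = 0 := by
      intro z'
      refine jU_one_var (fun k => ∑' β : Fin n → ℕ, c (Fin.cons k β) * ∏ i, z' i ^ β i) fun s => ?_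
      refine HasSum.prod_fiberwise (hk z' s) fun k => ?_
      exact (hsummable z' k).hasSum.mul_left (s ^ k)
    have hser : Ser (fun β : Fin n → ℕ => c (Fin.cons (α 0) β)) (fun _ => 0) := by
      intro z'
      have h1 := (hsummable z' (α 0)).hasSum
      rw [hB z' (α 0)] at h1
      exact h1
    have h1 := ih _ hser (Fin.tail α)
    simpa using h1

/-! ### jDf -/

/-- everywhere convergent power series are entire -/
theorem ser_diff {n : ℕ} (c : (Fin n → ℕ) → ℂ) (g : (Fin n → ℂ) → ℂ) (h : Ser c g) :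
    Differentiable ℂ g := by
  classical
  set t : (Fin n → ℕ) → (Fin n → ℂ) → ℂ := fun α z => c α * ∏ i, z i ^ α i with ht
  have hg : g = fun z => ∑' α, t α z := by
    funext z
    exact ((h z).tsum_eq).symm
  have htd : ∀ α, Differentiable ℂ (t α) := by
    intro α
    simp only [ht]
    fun_prop
  intro z0
  set R : ℝ := ‖z0‖ + 1 with hR
  have hRpos : 0 < R := by positivity
  have hU : Summable (fun α : Fin n → ℕ => ‖c α‖ * ∏ i, (2 * R) ^ α i) := by
    have h1 := (h (fun _ => ((2 * R : ℝ) : ℂ))).summable.norm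
    refine h1.congr fun α => ?_
    rw [norm_mul, norm_prod]
    congr 1
    refine Finset.prod_congr rfl fun i _ => ?_
    rw [norm_pow, Complex.norm_real, Real.norm_of_nonneg (by positivity)]
  have htb : ∀ α (w : Fin n → ℂ), ‖w‖ ≤ 2 * R → ‖t α w‖ ≤ ‖c α‖ * ∏ i, (2 * R) ^ α i := by
    intro α w hw
    simp only [ht, norm_mul, norm_prod, norm_pow]
    refine mul_le_mul_of_nonneg_left (Finset.prod_le_prod (fun i _ => by positivity)
      fun i _ => ?_) (norm_nonneg _)
    exact pow_le_pow_left₀ (norm_nonneg _) ((norm_le_pi_norm w i).trans hw) _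
  have hfd : ∀ α (z : Fin n → ℂ), z ∈ Metric.ball (0 : Fin n → ℂ) R →
      ‖fderiv ℂ (t α) z‖ ≤ (‖c α‖ * ∏ i, (2 * R) ^ α i) / R := by
    intro α z hz
    rw [mem_ball_zero_iff] at hz
    have hU0 : 0 ≤ ‖c α‖ * ∏ i : Fin n, (2 * R) ^ α i := by positivity
    refine ContinuousLinearMap.opNorm_le_bound _ (by positivity) fun v => ?_
    by_cases hv : v = 0
    · rw [hv]; simp
    · have hvn : 0 < ‖v‖ := norm_pos_iff.2 hv
      set φ : ℂ → ℂ := fun s => t α (z + s • v) with hφ
      have hφd : Differentiable ℂ φ := by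
        apply (htd α).comp
        fun_prop
      have hder : HasDerivAt φ (fderiv ℂ (t α) z v) 0 := by
        have h1 : HasDerivAt (fun s : ℂ => z + s • v) v 0 := by
          have := ((hasDerivAt_id (0 : ℂ)).smul_const v).const_add z
          simpa using this
        have h2 : HasFDerivAt (t α) (fderiv ℂ (t α) z) (z + (0 : ℂ) • v) := by
          rw [zero_smul, add_zero]
          exact (htd α z).hasFDerivAt
        exact h2.comp_hasDerivAt 0 h1
      have hC := Complex.norm_deriv_le_of_forall_mem_sphere_norm_le (c := 0) (R := R / ‖v‖)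
        (C := ‖c α‖ * ∏ i, (2 * R) ^ α i) (f := φ) (by positivity) hφd.diffContOnCl (by
          intro s hs
          apply htb
          rw [mem_sphere_zero_iff_norm] at hs
          calc ‖z + s • v‖ ≤ ‖z‖ + ‖s • v‖ := norm_add_le _ _
            _ = ‖z‖ + R / ‖v‖ * ‖v‖ := by rw [norm_smul, hs]
            _ = ‖z‖ + R := by rw [div_mul_cancel₀ _ hvn.ne']
            _ ≤ 2 * R := by linarith)
      rw [hder.deriv] at hC
      refine hC.trans (le_of_eq ?_)
      field_simp
  have key := hasFDerivAt_tsum_of_isPreconnected (𝕜 := ℂ) (f := t) (f' := fun α z => fderiv ℂ (t α) z)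
    (u := fun α : Fin n → ℕ => (‖c α‖ * ∏ i, (2 * R) ^ α i) / R)
    (s := Metric.ball (0 : Fin n → ℂ) R) (x₀ := 0) (x := z0)
    (hU.div_const R) Metric.isOpen_ball (convex_ball _ _).isPreconnected
    (fun α z _ => (htd α z).hasFDerivAt) hfd (Metric.mem_ball_self hRpos) (h 0).summable
    (by rw [mem_ball_zero_iff]; linarith)
  rw [hg]
  exact key.differentiableAt

/-! ### jPd -/

/-- term by term differentiation -/
theorem ser_pd {n : ℕ} (j : Fin n) (c : (Fin n → ℕ) → ℂ) (g : (Fin n → ℂ) → ℂ) (h : Ser c g) :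
    Ser (fun α => ((α j : ℂ) + 1) * c (Function.update α j (α j + 1))) (pd j g) := by
  intro z
  have hg := ser_diff c g h
  have hprod : ∀ (t : ℂ) (α : Fin n → ℕ), ∏ i, (Function.update z j t) i ^ α i
      = (∏ i ∈ Finset.univ.erase j, z i ^ α i) * t ^ α j := by
    intro t α
    rw [← Finset.prod_erase_mul _ _ (Finset.mem_univ j)]
    congr 1
    · apply Finset.prod_congr rfl
      intro i hi
      rw [Function.update_of_ne (Finset.ne_of_mem_erase hi)]
    · simp
  have hG : ∀ t : ℂ, HasSum (fun α => (c α * ∏ i ∈ Finset.univ.erase j, z i ^ α i) * t ^ α j)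
      (g (Function.update z j t)) := by
    intro t
    have h1 := h (Function.update z j t)
    simp only [hprod] at h1
    convert h1 using 2
    ring
  have hGt : (fun t => g (Function.update z j t))
      = fun t => ∑' α, (c α * ∏ i ∈ Finset.univ.erase j, z i ^ α i) * t ^ α j :=
    funext fun t => (hG t).tsum_eq.symm
  obtain ⟨R, hR1, hRz⟩ : ∃ R : ℝ, 1 ≤ R ∧ ‖z j‖ < R := ⟨‖z j‖ + 1, by
    have := norm_nonneg (z j); linarith, by linarith⟩
  have hbound : ∀ (α : Fin n → ℕ) (y : ℂ), y ∈ Metric.ball (0:ℂ) R →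
      ‖(c α * ∏ i ∈ Finset.univ.erase j, z i ^ α i) * ((α j : ℂ) * y ^ (α j - 1))‖
        ≤ ‖(c α * ∏ i ∈ Finset.univ.erase j, z i ^ α i) * ((2 * R : ℝ) : ℂ) ^ α j‖ := by
    intro α y hy
    rw [norm_mul, norm_mul _ ((((2 * R : ℝ) : ℂ)) ^ α j)]
    apply mul_le_mul_of_nonneg_left _ (norm_nonneg _)
    have hyR : ‖y‖ ≤ R := by
      rw [mem_ball_zero_iff] at hy
      exact hy.le
    rw [norm_mul, norm_pow, norm_pow, Complex.norm_natCast, Complex.norm_real,
      Real.norm_of_nonneg (by linarith : (0:ℝ) ≤ 2 * R), mul_pow]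
    have h2 : ((α j : ℕ) : ℝ) ≤ 2 ^ α j := by
      exact_mod_cast (Nat.lt_two_pow_self (n := α j)).le
    have h3 : ‖y‖ ^ (α j - 1) ≤ R ^ α j :=
      le_trans (pow_le_pow_left₀ (norm_nonneg _) hyR _) (pow_le_pow_right₀ hR1 (Nat.sub_le _ _))
    exact mul_le_mul h2 h3 (by positivity) (by positivity)
  have hsum : Summable (fun α : Fin n → ℕ =>
      ‖(c α * ∏ i ∈ Finset.univ.erase j, z i ^ α i) * ((2 * R : ℝ) : ℂ) ^ α j‖) :=
    (hG _).summable.norm
  have hzR : z j ∈ Metric.ball (0:ℂ) R := by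
    rw [mem_ball_zero_iff]; exact hRz
  have hder : HasDerivAt (fun t => ∑' α, (c α * ∏ i ∈ Finset.univ.erase j, z i ^ α i) * t ^ α j)
      (∑' α : Fin n → ℕ, (c α * ∏ i ∈ Finset.univ.erase j, z i ^ α i)
        * ((α j : ℂ) * z j ^ (α j - 1))) (z j) := by
    apply hasDerivAt_tsum_of_isPreconnected hsum Metric.isOpen_ball
      (convex_ball (0:ℂ) R).isPreconnected
      (g := fun α t => (c α * ∏ i ∈ Finset.univ.erase j, z i ^ α i) * t ^ α j)
      (g' := fun α y => (c α * ∏ i ∈ Finset.univ.erase j, z i ^ α i)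
        * ((α j : ℂ) * y ^ (α j - 1))) (y₀ := z j)
    · intro α y _
      exact (hasDerivAt_pow (α j) y).const_mul _
    · exact hbound
    · exact hzR
    · exact (hG (z j)).summable
    · exact hzR
  have hchain : HasDerivAt (fun t => g (Function.update z j t)) (pd j g z) (z j) := by
    have h1 : HasDerivAt (Function.update z j) (Pi.single j (1:ℂ)) (z j) :=
      hasDerivAt_update z j (z j)
    have h2 : HasFDerivAt g (fderiv ℂ g z) (Function.update z j (z j)) := by
      rw [Function.update_eq_self]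
      exact (hg z).hasFDerivAt
    exact h2.comp_hasDerivAt (z j) h1
  have hval : pd j g z = ∑' α : Fin n → ℕ, (c α * ∏ i ∈ Finset.univ.erase j, z i ^ α i)
        * ((α j : ℂ) * z j ^ (α j - 1)) := by
    rw [hGt] at hchain
    exact hchain.unique hder
  have hsd : Summable (fun α : Fin n → ℕ => (c α * ∏ i ∈ Finset.univ.erase j, z i ^ α i)
        * ((α j : ℂ) * z j ^ (α j - 1))) :=
    Summable.of_norm_bounded hsum (fun α => hbound α (z j) hzR)
  have hfin : HasSum (fun α : Fin n → ℕ => (c α * ∏ i ∈ Finset.univ.erase j, z i ^ α i)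
        * ((α j : ℂ) * z j ^ (α j - 1))) (pd j g z) := by
    rw [hval]
    exact hsd.hasSum
  have hinj : Function.Injective (fun β : Fin n → ℕ => Function.update β j (β j + 1)) := by
    intro β γ hβγ
    funext i
    have h1 := congrFun hβγ i
    by_cases hi : i = j
    · subst hi
      simpa using h1
    · simpa [Function.update_of_ne hi] using h1
  have hre := (hinj.hasSum_iff (f := fun α : Fin n → ℕ =>
      (c α * ∏ i ∈ Finset.univ.erase j, z i ^ α i) * ((α j : ℂ) * z j ^ (α j - 1)))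
      (a := pd j g z) ?_).mpr hfin
  · convert hre using 2 with α
    simp only [Function.comp, Function.update_self, Nat.add_sub_cancel]
    rw [← Finset.prod_erase_mul _ _ (Finset.mem_univ j)]
    have hp : ∏ i ∈ Finset.univ.erase j, z i ^ (Function.update α j (α j + 1)) i
        = ∏ i ∈ Finset.univ.erase j, z i ^ α i := by
      apply Finset.prod_congr rfl
      intro i hi
      rw [Function.update_of_ne (Finset.ne_of_mem_erase hi)]
    rw [hp]
    push_cast
    ring
  · intro α hα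
    have h0 : α j = 0 := by
      by_contra hne
      apply hα
      refine ⟨Function.update α j (α j - 1), ?_⟩
      funext i
      by_cases hi : i = j
      · subst hi
        simp
        omega
      · simp [Function.update_of_ne hi]
    simp [h0]

/-! ### jIt -/

theorem ser_pd_iter {n : ℕ} (j : Fin n) (k : ℕ) (c : (Fin n → ℕ) → ℂ) (g : (Fin n → ℂ) → ℂ)
    (h : Ser c g) :
    Ser (fun α => (((α j + k).factorial : ℂ) / ((α j).factorial : ℂ)) *
      c (Function.update α j (α j + k))) ((pd j)^[k] g) := by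
  induction k with
  | zero =>
    have e : (fun α : Fin n → ℕ => (((α j + 0).factorial : ℂ) / ((α j).factorial : ℂ)) *
        c (Function.update α j (α j + 0))) = c := by
      funext α
      rw [add_zero, Function.update_eq_self, div_self, one_mul]
      exact_mod_cast (Nat.factorial_pos _).ne'
    rw [e]
    exact h
  | succ k ih =>
    rw [Function.iterate_succ_apply']
    have h2 := ser_pd j _ _ ih
    have e : (fun α : Fin n → ℕ => (((α j + (k + 1)).factorial : ℂ) / ((α j).factorial : ℂ)) *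
        c (Function.update α j (α j + (k + 1)))) = fun α : Fin n → ℕ => ((α j : ℂ) + 1) *
        ((((Function.update α j (α j + 1) j + k).factorial : ℂ) /
          ((Function.update α j (α j + 1) j).factorial : ℂ)) *
          c (Function.update (Function.update α j (α j + 1)) j
            (Function.update α j (α j + 1) j + k))) := by
      funext α
      rw [Function.update_self, Function.update_idem]
      have e1 : α j + 1 + k = α j + (k + 1) := by ring
      rw [e1, Nat.factorial_succ (α j)]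
      have h3 : ((α j).factorial : ℂ) ≠ 0 := by exact_mod_cast (Nat.factorial_pos _).ne'
      have h4 : ((α j : ℂ) + 1) ≠ 0 := by exact_mod_cast Nat.succ_ne_zero (α j)
      push_cast
      field_simp
    rw [e]
    exact h2

theorem jIt_ser_dpow_aux {n : ℕ} (m : Fin n →₀ ℕ) (d : (Fin n → ℕ) → ℂ) (g : (Fin n → ℂ) → ℂ)
    (h : Ser d g) (l : List (Fin n)) (hl : l.Nodup) :
    Ser (fun β => (∏ i ∈ l.toFinset, (((β i + m i).factorial : ℂ) / ((β i).factorial : ℂ))) *
      d (fun i => if i ∈ l then β i + m i else β i))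
      (l.foldr (fun (j : Fin n) (g : (Fin n → ℂ) → ℂ) => (pd j)^[m j] g) g) := by
  induction l with
  | nil =>
    have e : (fun β : Fin n → ℕ => (∏ i ∈ ([] : List (Fin n)).toFinset,
        (((β i + m i).factorial : ℂ) / ((β i).factorial : ℂ))) *
        d (fun i => if i ∈ ([] : List (Fin n)) then β i + m i else β i)) = d := by
      funext β
      simp
    rw [e]
    exact h
  | cons a l ih =>
    rw [List.nodup_cons] at hl
    have h2 := ser_pd_iter a (m a) _ _ (ih hl.2)
    rw [List.foldr_cons]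
    refine (congrArg (fun c => Ser c _) ?_).mp h2
    funext β
    rw [List.toFinset_cons, Finset.prod_insert (by simpa using hl.1), mul_assoc]
    congr 1
    congr 1
    · apply Finset.prod_congr rfl
      intro i hi
      have hia : i ≠ a := by
        rintro rfl
        exact hl.1 (List.mem_toFinset.1 hi)
      rw [Function.update_of_ne hia]
    · congr 1
      funext i
      by_cases hia : i = a
      · subst hia
        rw [if_neg hl.1, Function.update_self, if_pos (by simp)]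
      · rw [Function.update_of_ne hia]
        simp [hia]

theorem ser_dpow {n : ℕ} (m : Fin n →₀ ℕ) (d : (Fin n → ℕ) → ℂ) (g : (Fin n → ℂ) → ℂ)
    (h : Ser d g) :
    Ser (fun β => ((fac (fun i => β i + m i) : ℂ) / (fac β : ℂ)) * d (fun i => β i + m i))
      (dpow m g) := by
  have h2 := jIt_ser_dpow_aux m d g h (List.finRange n) (List.nodup_finRange n)
  refine (congrArg (fun c => Ser c _) ?_).mp h2
  funext β
  have e1 : (List.finRange n).toFinset = Finset.univ := by
    ext i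
    simp
  rw [e1]
  have e2 : (fun i => if i ∈ List.finRange n then β i + m i else β i) = fun i => β i + m i := by
    funext i
    rw [if_pos (List.mem_finRange i)]
  rw [e2, Finset.prod_div_distrib]
  unfold fac
  push_cast
  rfl

/-! ### jMu -/

theorem jMu_HasSum.congr_fun705 {ι : Type*} {f g : ι → ℂ} {a : ℂ} (h : HasSum g a)
    (hfg : ∀ x, f x = g x) : HasSum f a := by
  have : f = g := funext hfg
  rw [this]
  exact h



theorem ser_mul {n : ℕ} (P : MvPolynomial (Fin n) ℂ) (c : (Fin n → ℕ) → ℂ)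
    (f : (Fin n → ℂ) → ℂ) (h : Ser c f) :
    Ser (mulc P c) (fun w => MvPolynomial.eval w P * f w) := by
  intro z
  have key : ∀ m ∈ P.support, HasSum (fun γ : Fin n → ℕ =>
      (if ∀ i, m i ≤ γ i then P.coeff m * c (fun i => γ i - m i) else 0) * ∏ i, z i ^ γ i)
      (P.coeff m * (∏ i, z i ^ m i) * f z) := by
    intro m _
    have hinj : Function.Injective (fun α : Fin n → ℕ => (fun i => α i + m i : Fin n → ℕ)) := by
      intro a b hab
      funext i
      have := congrFun hab i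
      simpa using this
    have hz : ∀ γ : Fin n → ℕ, γ ∉ Set.range (fun α : Fin n → ℕ => (fun i => α i + m i : Fin n → ℕ)) →
        (if ∀ i, m i ≤ γ i then P.coeff m * c (fun i => γ i - m i) else 0) * ∏ i, z i ^ γ i = 0 := by
      intro γ hγ
      have hn : ¬ ∀ i, m i ≤ γ i := by
        intro hall
        apply hγ
        refine ⟨fun i => γ i - m i, ?_⟩
        funext i
        exact Nat.sub_add_cancel (hall i)
      rw [if_neg hn, zero_mul]
    rw [← hinj.hasSum_iff hz]
    have h1 := (h z).mul_left (P.coeff m * (∏ i, z i ^ m i))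
    refine jMu_HasSum.congr_fun705 h1 ?_
    intro α
    simp only [Function.comp]
    have hp : ∀ i, m i ≤ α i + m i := fun i => Nat.le_add_left _ _
    rw [if_pos hp]
    have e1 : (fun i => α i + m i - m i) = α := by
      funext i
      exact Nat.add_sub_cancel _ _
    rw [e1]
    have e2 : ∏ i, z i ^ (α i + m i) = (∏ i, z i ^ α i) * ∏ i, z i ^ m i := by
      rw [← Finset.prod_mul_distrib]
      exact Finset.prod_congr rfl (fun i _ => pow_add _ _ _)
    rw [e2]
    ring
  have hs := hasSum_sum key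
  have hv : MvPolynomial.eval z P * f z = ∑ m ∈ P.support, P.coeff m * (∏ i, z i ^ m i) * f z := by
    rw [MvPolynomial.eval_eq', Finset.sum_mul]
  have hf : (fun γ : Fin n → ℕ => mulc P c γ * ∏ i, z i ^ γ i) = fun γ : Fin n → ℕ =>
      ∑ m ∈ P.support,
      (if ∀ i, m i ≤ γ i then P.coeff m * c (fun i => γ i - m i) else 0) * ∏ i, z i ^ γ i := by
    funext γ
    unfold mulc
    rw [Finset.sum_mul]
  show HasSum (fun γ : Fin n → ℕ => mulc P c γ * ∏ i, z i ^ γ i) (MvPolynomial.eval z P * f z)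
  rw [hf, hv]
  exact hs

/-! ### jTc -/

/-- the coefficients of `T_P f` -/
theorem tp_coef {n : ℕ} (P : MvPolynomial (Fin n) ℂ) (c : (Fin n → ℕ) → ℂ)
    (f : (Fin n → ℂ) → ℂ) (h : Ser c f) (h0 : ∀ z, Tmap P f z = 0) (β : Fin n → ℕ) :
    ∑ m ∈ P.support, (starRingEnd ℂ) (P.coeff m) *
      ((fac (fun i => β i + m i) : ℂ) * mulc P c (fun i => β i + m i)) = 0 := by
  have h1 : ∀ m : Fin n →₀ ℕ, Ser (fun β => ((fac (fun i => β i + m i) : ℂ) / (fac β : ℂ)) *
      mulc P c (fun i => β i + m i)) (dpow m (fun w : Fin n → ℂ => MvPolynomial.eval w P * f w)) :=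
    fun m => ser_dpow m _ _ (ser_mul P c f h)
  have h2 : Ser (fun β : Fin n → ℕ => ∑ m ∈ P.support, (starRingEnd ℂ) (P.coeff m) *
      (((fac (fun i => β i + m i) : ℂ) / (fac β : ℂ)) * mulc P c (fun i => β i + m i)))
      (fun _ => 0) := by
    intro z
    have h3 : HasSum (fun α : Fin n → ℕ => ∑ m ∈ P.support, (starRingEnd ℂ) (P.coeff m) *
        ((((fac (fun i => α i + m i) : ℂ) / (fac α : ℂ)) * mulc P c (fun i => α i + m i)) *
          ∏ i, z i ^ α i)) (Tmap P f z) := by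
      unfold Tmap
      apply hasSum_sum
      intro m _
      exact (h1 m z).mul_left _
    rw [h0 z] at h3
    convert h3 using 1
    funext α
    rw [Finset.sum_mul]
    apply Finset.sum_congr rfl
    intro m _
    ring
  have h4 := ser_unique _ h2 β
  have hf : (fac β : ℂ) ≠ 0 := by
    have : fac β ≠ 0 := by
      unfold fac
      exact Finset.prod_ne_zero_iff.2 (fun i _ => Nat.factorial_ne_zero _)
    exact_mod_cast this
  have h5 : ∑ m ∈ P.support, (starRingEnd ℂ) (P.coeff m) *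
      ((fac (fun i => β i + m i) : ℂ) * mulc P c (fun i => β i + m i)) =
      (fac β : ℂ) * ∑ m ∈ P.support, (starRingEnd ℂ) (P.coeff m) *
      (((fac (fun i => β i + m i) : ℂ) / (fac β : ℂ)) * mulc P c (fun i => β i + m i)) := by
    rw [Finset.mul_sum]
    apply Finset.sum_congr rfl
    intro m _
    field_simp
  rw [h5, h4, mul_zero]

/-! ### jMz -/

theorem jMz_Ser.continuous {n : ℕ} (c : (Fin n → ℕ) → ℂ)
    (f : (Fin n → ℂ) → ℂ) (h : Ser c f) : Continuous f := by
  rw [continuous_iff_continuousAt]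
  intro z
  have hf : f = fun u => ∑' α : Fin n → ℕ, c α * ∏ i, u i ^ α i := by
    funext u
    exact (h u).tsum_eq.symm
  have hsum : Summable (fun α : Fin n → ℕ => ‖c α * ∏ i, ((‖z i‖ + 1 : ℝ) : ℂ) ^ α i‖) :=
    (h (fun i => ((‖z i‖ + 1 : ℝ) : ℂ))).summable.norm
  have hon : ContinuousOn (fun u : Fin n → ℂ => ∑' α : Fin n → ℕ, c α * ∏ i, u i ^ α i)
      {u | ∀ i, ‖u i‖ ≤ ‖z i‖ + 1} := by
    apply continuousOn_tsum _ hsum
    · intro α u hu
      rw [norm_mul, norm_mul, norm_prod, norm_prod]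
      apply mul_le_mul_of_nonneg_left _ (norm_nonneg _)
      apply Finset.prod_le_prod
      · intro i _; exact norm_nonneg _
      · intro i _
        rw [norm_pow, norm_pow]
        apply pow_le_pow_left₀ (norm_nonneg _)
        rw [Complex.norm_real, Real.norm_of_nonneg (by positivity)]
        exact hu i
    · intro α
      apply Continuous.continuousOn
      fun_prop
  rw [hf]
  apply hon.continuousAt
  have : {u : Fin n → ℂ | ∀ i, ‖u i‖ ≤ ‖z i‖ + 1} = ⋂ i, {u : Fin n → ℂ | ‖u i‖ ≤ ‖z i‖ + 1} := by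
    ext u; simp
  rw [this, Filter.iInter_mem]
  intro i
  have hc : Continuous (fun u : Fin n → ℂ => ‖u i‖) := by fun_prop
  have h2 : ∀ᶠ u in nhds z, ‖u i‖ < ‖z i‖ + 1 :=
    hc.continuousAt.eventually_lt continuousAt_const (by simp)
  filter_upwards [h2] with u hu
  exact hu.le

/-- if all coefficients of `P f` vanish then `f = 0` -/
theorem mulc_zero {n : ℕ} (P : MvPolynomial (Fin n) ℂ) (hP : P ≠ 0) (c : (Fin n → ℕ) → ℂ)
    (f : (Fin n → ℂ) → ℂ) (h : Ser c f) (h0 : ∀ γ, mulc P c γ = 0) : ∀ z, f z = 0 := by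
  intro z
  by_contra hz
  have hmul : ∀ w, MvPolynomial.eval w P * f w = 0 := fun w => by
    have h1 := ser_mul P c f h w
    simp only [h0, zero_mul] at h1
    exact h1.unique hasSum_zero
  obtain ⟨w0, hw0⟩ : ∃ w0, MvPolynomial.eval w0 P ≠ 0 := by
    by_contra hc
    push Not at hc
    exact hP (MvPolynomial.funext (fun x => by simpa using hc x))
  have hcont := jMz_Ser.continuous c f h
  obtain ⟨q, hqdef⟩ : ∃ q : Polynomial ℂ, q = MvPolynomial.eval₂ Polynomial.C
    (fun i => Polynomial.C (z i) + Polynomial.X * Polynomial.C (w0 i - z i)) P := ⟨_, rfl⟩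
  have hq : ∀ t : ℂ, q.eval t = MvPolynomial.eval (fun i => z i + t * (w0 i - z i)) P := by
    intro t
    have h1 := MvPolynomial.eval₂_comp_left (Polynomial.evalRingHom t) Polynomial.C
      (fun i => Polynomial.C (z i) + Polynomial.X * Polynomial.C (w0 i - z i)) P
    rw [← hqdef] at h1
    rw [Polynomial.coe_evalRingHom] at h1
    rw [h1, MvPolynomial.eval, MvPolynomial.eval₂Hom]
    congr 1
    · ext x; simp
    · funext i; simp
  have hF : Continuous (fun t : ℂ => f (fun i => z i + t * (w0 i - z i))) :=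
    hcont.comp (by fun_prop)
  have hF0 : (fun t : ℂ => f (fun i => z i + t * (w0 i - z i))) 0 ≠ 0 := by
    simpa using hz
  have hev := hF.continuousAt.eventually_ne hF0
  have hinf : Set.Infinite {t : ℂ | q.IsRoot t} := by
    apply infinite_of_mem_nhds (0 : ℂ)
    filter_upwards [hev] with t ht
    have h1 := hmul (fun i => z i + t * (w0 i - z i))
    rw [← hq t] at h1
    exact (mul_eq_zero.mp h1).resolve_right ht
  have hq0 := Polynomial.eq_zero_of_infinite_isRoot q hinf
  have h1 := hq 1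
  rw [hq0] at h1
  simp at h1
  exact hw0 h1.symm

/-! ### difference -/

theorem tp_sub {n : ℕ} (P : MvPolynomial (Fin n) ℂ) (f g : (Fin n → ℂ) → ℂ)
    (hf : Differentiable ℂ f) (hg : Differentiable ℂ g) (h : Tmap P f = Tmap P g) :
    ∀ z, Tmap P (fun z => f z - g z) z = 0 := by
  obtain ⟨c1, -, h1⟩ := taylor f hf
  obtain ⟨c2, -, h2⟩ := taylor g hg
  have s1 := ser_mul P c1 f h1
  have s2 := ser_mul P c2 g h2
  have s3 : Ser (fun γ => mulc P c1 γ - mulc P c2 γ)
      (fun w => MvPolynomial.eval w P * (f w - g w)) := by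
    intro z
    have := (s1 z).sub (s2 z)
    simp only [← sub_mul, ← mul_sub] at this
    exact this
  intro z
  have key : ∀ m : Fin n →₀ ℕ, dpow m (fun w => MvPolynomial.eval w P * (f w - g w)) z =
      dpow m (fun w => MvPolynomial.eval w P * f w) z -
        dpow m (fun w => MvPolynomial.eval w P * g w) z := by
    intro m
    have d1 := ser_dpow m _ _ s1 z
    have d2 := ser_dpow m _ _ s2 z
    have d3 := ser_dpow m _ _ s3 z
    have d4 := d1.sub d2
    simp only [← sub_mul, ← mul_sub] at d4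
    exact d3.unique d4
  have hz := congrFun h z
  unfold Tmap at hz ⊢
  simp only [key]
  rw [← sub_eq_zero] at hz
  rw [← hz, ← Finset.sum_sub_distrib]
  exact Finset.sum_congr rfl fun m _ => mul_sub _ _ _

/-! ### jRb -/

/-- sequences with a linear recurrence with constant coefficients grow at most exponentially -/
theorem rec_bound (N : ℕ) (q : ℕ → ℂ) (hq : q N ≠ 0) (G : ℕ → ℂ)
    (h : ∀ k, ∑ j ∈ Finset.range (N + 1), q j * G (k + j) = 0) :
    ∃ C B : ℝ, 0 ≤ C ∧ 1 ≤ B ∧ ∀ k, ‖G k‖ ≤ C * B ^ k := by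
  have hq0 : 0 < ‖q N‖ := norm_pos_iff.mpr hq
  obtain ⟨S, hS⟩ : ∃ S : ℝ, S = ∑ j ∈ Finset.range N, ‖q j‖ / ‖q N‖ := ⟨_, rfl⟩
  obtain ⟨C, hC⟩ : ∃ C : ℝ, C = ∑ j ∈ Finset.range N, ‖G j‖ := ⟨_, rfl⟩
  have hS0 : 0 ≤ S := by rw [hS]; positivity
  have hC0 : 0 ≤ C := by rw [hC]; positivity
  have hB1 : 1 ≤ 1 + S := by linarith
  have hB0 : 0 < 1 + S := by linarith
  refine ⟨C, 1 + S, hC0, hB1, fun k => ?_⟩
  induction k using Nat.strong_induction_on with
  | _ k ih =>
    rcases Nat.lt_or_ge k N with hk | hk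
    · have e1 : ‖G k‖ ≤ C := by
        rw [hC]
        exact Finset.single_le_sum (f := fun j => ‖G j‖) (fun _ _ => norm_nonneg _)
          (Finset.mem_range.mpr hk)
      calc ‖G k‖ ≤ C := e1
        _ = C * 1 := (mul_one _).symm
        _ ≤ C * (1 + S) ^ k := mul_le_mul_of_nonneg_left (one_le_pow₀ hB1) hC0
    · obtain ⟨i, rfl⟩ := Nat.exists_eq_add_of_le hk
      have e2 := h i
      rw [Finset.sum_range_succ] at e2
      have e3 : G (N + i) = -(∑ j ∈ Finset.range N, q j * G (i + j)) / q N := by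
        rw [eq_div_iff hq, add_comm N i]
        linear_combination e2
      have e4 : ‖G (N + i)‖ ≤ ∑ j ∈ Finset.range N, ‖q j‖ / ‖q N‖ * ‖G (i + j)‖ := by
        rw [e3, norm_div, norm_neg, div_le_iff₀ hq0, Finset.sum_mul]
        refine (norm_sum_le _ _).trans (Finset.sum_le_sum fun j _ => ?_)
        rw [norm_mul]
        have : ‖q j‖ / ‖q N‖ * ‖G (i + j)‖ * ‖q N‖ = ‖q j‖ * ‖G (i + j)‖ := by
          field_simp
        rw [this]
      have e5 : ∑ j ∈ Finset.range N, ‖q j‖ / ‖q N‖ * ‖G (i + j)‖ ≤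
          ∑ j ∈ Finset.range N, ‖q j‖ / ‖q N‖ * (C * (1 + S) ^ (N + i) / (1 + S)) := by
        apply Finset.sum_le_sum
        intro j hj
        rw [Finset.mem_range] at hj
        apply mul_le_mul_of_nonneg_left _ (by positivity)
        refine (ih (i + j) (by omega)).trans ?_
        rw [le_div_iff₀ hB0, mul_assoc, ← pow_succ]
        exact mul_le_mul_of_nonneg_left (pow_le_pow_right₀ hB1 (by omega)) hC0
      rw [← Finset.sum_mul, ← hS] at e5
      refine e4.trans (e5.trans ?_)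
      rw [← mul_div_assoc, div_le_iff₀ hB0, mul_comm]
      exact mul_le_mul_of_nonneg_left (by linarith) (by positivity)

/-! ### jBz -/

/-- the abstract positivity argument on a block -/
theorem block_zero (N : ℕ) (q : ℕ → ℂ) (hq : q N ≠ 0) (b : ℕ → ℂ) (W : ℕ → ℝ)
    (hW : ∀ k, 0 < W k) (hb : ∀ ρ : ℝ, 0 < ρ → ∃ M : ℝ, ∀ k, ‖b k‖ * ρ ^ k ≤ M)
    (h : ∀ k, ∑ j ∈ Finset.range (N + 1), (starRingEnd ℂ) (q j) *
      ((W (k + j) : ℂ) * ∑ i ∈ Finset.range (N + 1),
        if i ≤ k + j then q i * b (k + j - i) else 0) = 0) (k : ℕ) :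
    (∑ i ∈ Finset.range (N + 1), if i ≤ k then q i * b (k - i) else 0) = 0 := by
  set d : ℕ → ℂ := fun k => ∑ i ∈ Finset.range (N + 1), if i ≤ k then q i * b (k - i) else 0
    with hd
  set G : ℕ → ℂ := fun k => (W k : ℂ) * d k with hG
  have hrec : ∀ k, ∑ j ∈ Finset.range (N + 1), (starRingEnd ℂ) (q j) * G (k + j) = 0 := by
    intro k
    exact h k
  obtain ⟨C, B, hC, hB, hGB⟩ := rec_bound N (fun j => (starRingEnd ℂ) (q j))
    (by simpa using hq) G hrec
  obtain ⟨M, hM⟩ := hb (4 * B) (by linarith)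
  have hB0 : 0 < B := by linarith
  have hbn : ∀ i, ‖b i‖ * B ^ i ≤ M * (1 / 4) ^ i := by
    intro i
    have h1 := hM i
    have h2 : (4 * B) ^ i = 4 ^ i * B ^ i := mul_pow _ _ _
    rw [h2] at h1
    have h3 : (0:ℝ) < (1 / 4 : ℝ) ^ i := by positivity
    have h4 : (1 / 4 : ℝ) ^ i * 4 ^ i = 1 := by
      rw [← mul_pow]; norm_num
    calc ‖b i‖ * B ^ i = (‖b i‖ * (4 ^ i * B ^ i)) * (1 / 4) ^ i := by
          rw [show (‖b i‖ * (4 ^ i * B ^ i)) * (1 / 4) ^ i =
            ‖b i‖ * B ^ i * ((1 / 4 : ℝ) ^ i * 4 ^ i) by ring, h4, mul_one]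
      _ ≤ M * (1 / 4) ^ i := mul_le_mul_of_nonneg_right h1 h3.le
  have hsm : ∀ j, Summable (fun i => (starRingEnd ℂ) (q j) * ((starRingEnd ℂ) (b i) * G (i + j))) := by
    intro j
    refine Summable.of_norm_bounded (g := fun i => (‖q j‖ * C * B ^ j * M) * (1 / 4 : ℝ) ^ i)
      ((summable_geometric_of_lt_one (by norm_num) (by norm_num)).mul_left _) ?_
    intro i
    rw [norm_mul, norm_mul, RCLike.norm_conj, RCLike.norm_conj]
    have h1 := hGB (i + j)
    have h2 := hbn i
    calc ‖q j‖ * (‖b i‖ * ‖G (i + j)‖) ≤ ‖q j‖ * (‖b i‖ * (C * B ^ (i + j))) := by gcongr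
      _ = ‖q j‖ * C * B ^ j * (‖b i‖ * B ^ i) := by rw [pow_add]; ring
      _ ≤ ‖q j‖ * C * B ^ j * (M * (1 / 4) ^ i) := by gcongr
      _ = _ := by ring
  have hF : ∀ j, HasSum (fun k => if j ≤ k then (starRingEnd ℂ) (q j) *
      ((starRingEnd ℂ) (b (k - j)) * G k) else 0)
      (∑' i, (starRingEnd ℂ) (q j) * ((starRingEnd ℂ) (b i) * G (i + j))) := by
    intro j
    have h1 := (hasSum_nat_add_iff (f := fun k => if j ≤ k then (starRingEnd ℂ) (q j) *
      ((starRingEnd ℂ) (b (k - j)) * G k) else 0) j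
      (g := ∑' i, (starRingEnd ℂ) (q j) * ((starRingEnd ℂ) (b i) * G (i + j)))).1 (by
        have h2 := (hsm j).hasSum
        simpa using h2)
    have h3 : ∑ i ∈ Finset.range j, (if j ≤ i then (starRingEnd ℂ) (q j) *
      ((starRingEnd ℂ) (b (i - j)) * G i) else 0) = 0 := by
      refine Finset.sum_eq_zero (fun i hi => ?_)
      rw [if_neg (not_le.2 (Finset.mem_range.1 hi))]
    rw [h3, add_zero] at h1
    exact h1
  have htot : HasSum (fun k => ∑ j ∈ Finset.range (N + 1), if j ≤ k then (starRingEnd ℂ) (q j) *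
      ((starRingEnd ℂ) (b (k - j)) * G k) else 0)
      (∑ j ∈ Finset.range (N + 1),
        ∑' i, (starRingEnd ℂ) (q j) * ((starRingEnd ℂ) (b i) * G (i + j))) :=
    hasSum_sum (fun j _ => hF j)
  have hzero : (∑ j ∈ Finset.range (N + 1),
        ∑' i, (starRingEnd ℂ) (q j) * ((starRingEnd ℂ) (b i) * G (i + j))) = 0 := by
    have h1 : HasSum (fun i => ∑ j ∈ Finset.range (N + 1),
        (starRingEnd ℂ) (q j) * ((starRingEnd ℂ) (b i) * G (i + j)))
        (∑ j ∈ Finset.range (N + 1),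
        ∑' i, (starRingEnd ℂ) (q j) * ((starRingEnd ℂ) (b i) * G (i + j))) :=
      hasSum_sum (fun j _ => (hsm j).hasSum)
    have h2 : (fun i => ∑ j ∈ Finset.range (N + 1),
        (starRingEnd ℂ) (q j) * ((starRingEnd ℂ) (b i) * G (i + j))) = fun _ => 0 := by
      funext i
      have h3 := hrec i
      calc ∑ j ∈ Finset.range (N + 1), (starRingEnd ℂ) (q j) * ((starRingEnd ℂ) (b i) * G (i + j))
          = (starRingEnd ℂ) (b i) * ∑ j ∈ Finset.range (N + 1), (starRingEnd ℂ) (q j) * G (i + j) := by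
            rw [Finset.mul_sum]
            exact Finset.sum_congr rfl (fun j _ => by ring)
        _ = 0 := by rw [h3, mul_zero]
    rw [h2] at h1
    exact h1.unique hasSum_zero
  rw [hzero] at htot
  have hterm : (fun k => ∑ j ∈ Finset.range (N + 1), if j ≤ k then (starRingEnd ℂ) (q j) *
      ((starRingEnd ℂ) (b (k - j)) * G k) else 0) = fun k => ((W k * ‖d k‖ ^ 2 : ℝ) : ℂ) := by
    funext k
    have h1 : (∑ j ∈ Finset.range (N + 1), if j ≤ k then (starRingEnd ℂ) (q j) *
      ((starRingEnd ℂ) (b (k - j)) * G k) else 0) = G k * (starRingEnd ℂ) (d k) := by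
      rw [hd]
      simp only [map_sum, Finset.mul_sum]
      refine Finset.sum_congr rfl (fun j _ => ?_)
      by_cases hj : j ≤ k
      · simp only [hj, if_true, map_mul]; ring
      · simp only [hj, if_false, map_zero, mul_zero]
    rw [h1, hG]
    have h2 : d k * (starRingEnd ℂ) (d k) = ((‖d k‖ ^ 2 : ℝ) : ℂ) := by
      rw [Complex.mul_conj, Complex.normSq_eq_norm_sq]
    push_cast at h2 ⊢
    rw [← h2]; ring
  rw [hterm] at htot
  have hre : HasSum (fun k => W k * ‖d k‖ ^ 2) 0 := by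
    have h8 := Complex.hasSum_re htot
    simp only [Complex.ofReal_re, Complex.zero_re] at h8
    exact h8
  have hall := (hasSum_zero_iff_of_nonneg (fun k => mul_nonneg (hW k).le (sq_nonneg _))).1 hre
  have hk := congrFun hall k
  have h5 : ‖d k‖ ^ 2 = 0 := by
    rcases mul_eq_zero.1 hk with h6 | h6
    · exact absurd h6 (hW k).ne'
    · exact h6
  have h7 : ‖d k‖ = 0 := by simpa using h5
  exact norm_eq_zero.1 h7

/-! ### jMm -/

/-- the coefficients of `P f` if `P` is a polynomial in one monomial -/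
theorem mulc_mono {n : ℕ} (a : Fin n →₀ ℕ) (ha : a ≠ 0) (N : ℕ) (q : ℕ → ℂ)
    (P : MvPolynomial (Fin n) ℂ)
    (hP : P = ∑ j ∈ Finset.range (N + 1), MvPolynomial.monomial (j • a) (q j))
    (c : (Fin n → ℕ) → ℂ) (γ : Fin n → ℕ) :
    mulc P c γ = ∑ j ∈ Finset.range (N + 1),
      if ∀ i, j * a i ≤ γ i then q j * c (fun i => γ i - j * a i) else 0 := by
  classical
  have hinj : Function.Injective (fun j : ℕ => j • a) := by
    obtain ⟨i, hi⟩ := Finsupp.ne_iff.mp ha
    intro j k hjk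
    have h1 : (j • a) i = (k • a) i := by
      have h0 : j • a = k • a := hjk
      rw [h0]
    rw [Finsupp.smul_apply, Finsupp.smul_apply, smul_eq_mul, smul_eq_mul] at h1
    exact Nat.eq_of_mul_eq_mul_right (Nat.pos_of_ne_zero hi) h1
  have hcoeff : ∀ m, P.coeff m = ∑ j ∈ Finset.range (N + 1), if j • a = m then q j else 0 := by
    intro m
    rw [hP, MvPolynomial.coeff_sum]
    simp only [MvPolynomial.coeff_monomial]
  have hk : ∀ k ∈ Finset.range (N + 1), P.coeff (k • a) = q k := by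
    intro k hk
    rw [hcoeff, Finset.sum_eq_single k]
    · simp
    · intro j _ hj
      rw [if_neg (fun h => hj (hinj h))]
    · intro h; exact absurd hk h
  have hsub : P.support ⊆ (Finset.range (N + 1)).image (fun j : ℕ => j • a) := by
    intro m hm
    by_contra hcon
    apply MvPolynomial.mem_support_iff.mp hm
    rw [hcoeff]
    apply Finset.sum_eq_zero
    intro j hj
    rw [if_neg]
    intro h
    exact hcon (Finset.mem_image.mpr ⟨j, hj, h⟩)
  unfold mulc
  rw [Finset.sum_subset hsub, Finset.sum_image (fun x _ y _ h => hinj h)]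
  · apply Finset.sum_congr rfl
    intro j hj
    simp only [Finsupp.smul_apply, smul_eq_mul, hk j hj]
  · intro m _ hm
    rw [MvPolynomial.notMem_support_iff.mp hm, zero_mul, ite_self]

/-! ### jPm -/

theorem pos_mono {n : ℕ} (a : Fin n →₀ ℕ) (ha : a ≠ 0) (N : ℕ) (q : ℕ → ℂ) (hq : q N ≠ 0)
    (P : MvPolynomial (Fin n) ℂ)
    (hP : P = ∑ j ∈ Finset.range (N + 1), MvPolynomial.monomial (j • a) (q j))
    (c : (Fin n → ℕ) → ℂ)
    (hc : ∀ ρ : ℝ, 0 < ρ → ∃ M : ℝ, ∀ α, ‖c α‖ * ρ ^ (∑ i, α i) ≤ M)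
    (h : ∀ β : Fin n → ℕ, ∑ m ∈ P.support, (starRingEnd ℂ) (P.coeff m) *
      ((fac (fun i => β i + m i) : ℂ) * mulc P c (fun i => β i + m i)) = 0)
    (γ : Fin n → ℕ) : mulc P c γ = 0 := by
  classical
  obtain ⟨i0, hi0⟩ : ∃ i0, a i0 ≠ 0 := by
    by_contra hcon
    push Not at hcon
    exact ha (Finsupp.ext hcon)
  have hi1 : 1 ≤ a i0 := Nat.one_le_iff_ne_zero.2 hi0
  set K : ℕ := Nat.findGreatest (fun k => ∀ i, k * a i ≤ γ i) (γ i0) with hK
  have hKP : ∀ i, K * a i ≤ γ i :=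
    Nat.findGreatest_spec (P := fun k => ∀ i, k * a i ≤ γ i) (Nat.zero_le (γ i0))
      (fun i => by simp)
  have hKmax : ∀ k, (∀ i, k * a i ≤ γ i) → k ≤ K := by
    intro k hk
    refine Nat.le_findGreatest ?_ hk
    have := hk i0
    nlinarith
  set β : Fin n → ℕ := fun i => γ i - K * a i with hβ
  have hγ : ∀ i, γ i = β i + K * a i := fun i => by
    have := hKP i
    simp only [hβ]
    omega
  have hiff : ∀ k k' : ℕ, (∀ i, k' * a i ≤ β i + k * a i) ↔ k' ≤ k := by
    intro k k'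
    constructor
    · intro hk
      by_contra hlt
      push Not at hlt
      obtain ⟨r, rfl⟩ : ∃ r, k' = k + (r + 1) := ⟨k' - k - 1, by omega⟩
      have h1 : K + (r + 1) ≤ K := by
        refine hKmax _ (fun i => ?_)
        have h2 := hk i
        have h3 := hγ i
        nlinarith
      omega
    · intro hk i
      have : k' * a i ≤ k * a i := Nat.mul_le_mul_right _ hk
      omega
  set b : ℕ → ℂ := fun k => c (fun i => β i + k * a i) with hb
  set W : ℕ → ℝ := fun k => (fac (fun i => β i + k * a i) : ℝ) with hW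
  have hmulc : ∀ k, mulc P c (fun i => β i + k * a i) =
      ∑ i ∈ Finset.range (N + 1), if i ≤ k then q i * b (k - i) else 0 := by
    intro k
    rw [mulc_mono a ha N q P hP]
    refine Finset.sum_congr rfl (fun j _ => ?_)
    by_cases hj : j ≤ k
    · rw [if_pos hj, if_pos ((hiff k j).2 hj)]
      congr 1
      simp only [hb]
      congr 1
      funext i
      have : k * a i = j * a i + (k - j) * a i := by
        rw [← add_mul]; congr 1; omega
      omega
    · rw [if_neg hj, if_neg (fun h' => hj ((hiff k j).1 h'))]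
  have hinj : ∀ j j' : ℕ, j • a = j' • a → j = j' := by
    intro j j' hjj
    have h1 := DFunLike.congr_fun hjj i0
    simp only [Finsupp.smul_apply, smul_eq_mul] at h1
    exact Nat.eq_of_mul_eq_mul_right (by omega) h1
  have hcoeff : ∀ m, P.coeff m = ∑ j ∈ Finset.range (N + 1), if j • a = m then q j else 0 := by
    intro m
    rw [hP, MvPolynomial.coeff_sum]
    refine Finset.sum_congr rfl (fun j _ => ?_)
    rw [MvPolynomial.coeff_monomial]
  have hcoeffj : ∀ j ∈ Finset.range (N + 1), P.coeff (j • a) = q j := by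
    intro j hj
    rw [hcoeff, Finset.sum_eq_single j]
    · rw [if_pos rfl]
    · intro j' _ hne
      rw [if_neg (fun h' => hne (hinj _ _ h'))]
    · intro h'
      exact absurd hj h'
  have hsupp : P.support ⊆ (Finset.range (N + 1)).image (fun j => j • a) := by
    intro m hm
    rw [MvPolynomial.mem_support_iff, hcoeff] at hm
    obtain ⟨j, hj, hne⟩ := Finset.exists_ne_zero_of_sum_ne_zero hm
    refine Finset.mem_image.2 ⟨j, hj, ?_⟩
    by_contra hcon
    rw [if_neg hcon] at hne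
    exact hne rfl
  have hsum : ∀ F : (Fin n →₀ ℕ) → ℂ, ∑ m ∈ P.support, (starRingEnd ℂ) (P.coeff m) * F m =
      ∑ j ∈ Finset.range (N + 1), (starRingEnd ℂ) (q j) * F (j • a) := by
    intro F
    rw [Finset.sum_subset hsupp]
    · rw [Finset.sum_image (fun j _ j' _ hjj => hinj j j' hjj)]
      exact Finset.sum_congr rfl (fun j hj => by rw [hcoeffj j hj])
    · intro m _ hm
      rw [MvPolynomial.notMem_support_iff] at hm
      rw [hm, map_zero, zero_mul]
  have hmain := block_zero N q hq b W ?_ ?_ ?_ K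
  · have h1 : γ = fun i => β i + K * a i := funext hγ
    rw [h1, hmulc K]
    exact hmain
  · intro k
    simp only [hW]
    have : 0 < fac (fun i => β i + k * a i) := Finset.prod_pos (fun i _ => Nat.factorial_pos _)
    exact_mod_cast this
  · intro ρ hρ
    obtain ⟨M, hM⟩ := hc (max ρ 1) (lt_of_lt_of_le hρ (le_max_left _ _))
    refine ⟨M, fun k => ?_⟩
    refine le_trans ?_ (hM (fun i => β i + k * a i))
    refine mul_le_mul_of_nonneg_left ?_ (norm_nonneg _)
    have h1 : ρ ^ k ≤ (max ρ 1) ^ k := pow_le_pow_left₀ hρ.le (le_max_left _ _) k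
    refine h1.trans (pow_le_pow_right₀ (le_max_right _ _) ?_)
    calc k ≤ β i0 + k * a i0 := by nlinarith
      _ ≤ ∑ i, (β i + k * a i) :=
        Finset.single_le_sum (f := fun i => β i + k * a i) (fun i _ => Nat.zero_le _)
          (Finset.mem_univ i0)
  · intro k
    have h1 := h (fun i => β i + k * a i)
    rw [hsum (fun m => (fac (fun i => β i + k * a i + m i) : ℂ) *
      mulc P c (fun i => β i + k * a i + m i))] at h1
    refine Eq.trans (Finset.sum_congr rfl (fun j _ => ?_)) h1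
    have h2 : (fun i => β i + k * a i + (j • a) i) = fun i => β i + (k + j) * a i := by
      funext i
      simp only [Finsupp.smul_apply, smul_eq_mul]
      ring
    rw [h2, hmulc (k + j)]
    simp only [hW, Complex.ofReal_natCast]

/-! ### jRm -/

theorem result_mono {n : ℕ} (a : Fin n →₀ ℕ) (ha : a ≠ 0) (N : ℕ) (q : ℕ → ℂ)
    (P : MvPolynomial (Fin n) ℂ)
    (hP : P = ∑ j ∈ Finset.range (N + 1), MvPolynomial.monomial (j • a) (q j))
    (hP0 : P ≠ 0)
    (f : (Fin n → ℂ) → ℂ) (hf : Differentiable ℂ f) (h0 : ∀ z, Tmap P f z = 0) :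
    ∀ z, f z = 0 := by
  have key : ∀ N : ℕ, P = ∑ j ∈ Finset.range (N + 1), MvPolynomial.monomial (j • a) (q j) →
      ∃ N', q N' ≠ 0 ∧ P = ∑ j ∈ Finset.range (N' + 1), MvPolynomial.monomial (j • a) (q j) := by
    intro N
    induction N with
    | zero =>
      intro hN
      refine ⟨0, ?_, hN⟩
      intro hq
      apply hP0
      rw [hN]
      simp [hq]
    | succ N ih =>
      intro hN
      by_cases hq : q (N + 1) = 0
      · apply ih
        rw [Finset.sum_range_succ, hq, MvPolynomial.monomial_zero, add_zero] at hN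
        exact hN
      · exact ⟨N + 1, hq, hN⟩
  obtain ⟨N', hq, hP'⟩ := key N hP
  obtain ⟨c, hc, hser⟩ := taylor f hf
  refine mulc_zero P hP0 c f hser (fun γ => ?_)
  refine pos_mono a ha N' q hq P hP' c ?_ (fun β => tp_coef P c f hser h0 β) γ
  intro ρ hρ
  obtain ⟨M, hM⟩ := (isCompact_closedBall (0 : Fin n → ℂ) ρ).exists_bound_of_continuousOn
    hf.continuous.continuousOn
  refine ⟨M, hc ρ M hρ (fun z hz => hM z ?_)⟩
  rw [mem_closedBall_zero_iff]
  exact hz

/-! ### kRg -/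

theorem rec_growth (N : ℕ) (q : ℕ → ℂ) (hq : q N ≠ 0) :
    ∃ C B : ℝ, 0 ≤ C ∧ 1 ≤ B ∧ ∀ G R : ℕ → ℂ,
      (∀ k, ∑ j ∈ Finset.range (N + 1), q j * G (k + j) = R k) → ∀ k,
      ‖G k‖ ≤ C * (B ^ k * ∑ j ∈ Finset.range N, ‖G j‖ +
        ∑ l ∈ Finset.range (k + 1), B ^ (k - l) * ‖R l‖) := by
  have hqn : 0 < ‖q N‖ := norm_pos_iff.mpr hq
  set s : ℝ := 1 / ‖q N‖ with hs
  have hs0 : 0 < s := by rw [hs]; positivity
  set S : ℝ := (∑ j ∈ Finset.range N, ‖q j‖) * s with hS
  have hS0 : 0 ≤ S := mul_nonneg (Finset.sum_nonneg fun _ _ => norm_nonneg _) hs0.le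
  refine ⟨1 + s, S + 1, by linarith, by linarith, ?_⟩
  intro G R hGR
  set B : ℝ := S + 1 with hB
  set C : ℝ := 1 + s with hC
  have hB1 : 1 ≤ B := by linarith
  have hC1 : 1 ≤ C := by linarith
  set A : ℝ := ∑ j ∈ Finset.range N, ‖G j‖ with hA
  have hA0 : 0 ≤ A := Finset.sum_nonneg fun _ _ => norm_nonneg _
  set U : ℕ → ℝ := fun k => B ^ k * A + ∑ l ∈ Finset.range (k + 1), B ^ (k - l) * ‖R l‖ with hU
  have hU0 : ∀ k, 0 ≤ U k := fun k => by
    simp only [hU]
    have : 0 ≤ ∑ l ∈ Finset.range (k + 1), B ^ (k - l) * ‖R l‖ :=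
      Finset.sum_nonneg fun _ _ => by positivity
    positivity
  have hUs : ∀ k, U (k + 1) = B * U k + ‖R (k + 1)‖ := by
    intro k
    simp only [hU]
    rw [Finset.sum_range_succ _ (k + 1), Nat.sub_self, pow_zero, one_mul]
    have h1 : ∑ l ∈ Finset.range (k + 1), B ^ (k + 1 - l) * ‖R l‖ =
        B * ∑ l ∈ Finset.range (k + 1), B ^ (k - l) * ‖R l‖ := by
      rw [Finset.mul_sum]
      refine Finset.sum_congr rfl fun l hl => ?_
      have : k + 1 - l = (k - l) + 1 := by
        have := Finset.mem_range.mp hl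
        omega
      rw [this, pow_succ]; ring
    rw [h1, pow_succ]; ring
  have hUm : Monotone U := by
    refine monotone_nat_of_le_succ fun k => ?_
    rw [hUs k]
    nlinarith [hU0 k, norm_nonneg (R (k + 1))]
  have hRU : ∀ m, ‖R m‖ ≤ U m := by
    intro m
    simp only [hU]
    rw [Finset.sum_range_succ, Nat.sub_self, pow_zero, one_mul]
    have h1 : 0 ≤ ∑ l ∈ Finset.range m, B ^ (m - l) * ‖R l‖ :=
      Finset.sum_nonneg fun _ _ => by positivity
    have h2 : 0 ≤ B ^ m * A := by positivity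
    linarith
  intro k
  change ‖G k‖ ≤ C * U k
  induction k using Nat.strong_induction_on with
  | _ k ih =>
    by_cases hk : k < N
    · have h1 : ‖G k‖ ≤ A :=
        Finset.single_le_sum (f := fun j => ‖G j‖) (fun _ _ => norm_nonneg _) (Finset.mem_range.mpr hk)
      have h2 : A ≤ B ^ k * A := by
        have := one_le_pow₀ hB1 (n := k)
        nlinarith
      have h3 : B ^ k * A ≤ U k := by
        simp only [hU]
        have : 0 ≤ ∑ l ∈ Finset.range (k + 1), B ^ (k - l) * ‖R l‖ :=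
          Finset.sum_nonneg fun _ _ => by positivity
        linarith
      nlinarith [hU0 k]
    · obtain ⟨m, rfl⟩ : ∃ m, k = m + N := ⟨k - N, by omega⟩
      have h1 := hGR m
      rw [Finset.sum_range_succ] at h1
      have h2 : q N * G (m + N) = R m - ∑ j ∈ Finset.range N, q j * G (m + j) := by
        rw [← h1]; ring
      have h3 : ‖q N‖ * ‖G (m + N)‖ ≤ ‖R m‖ + ∑ j ∈ Finset.range N, ‖q j‖ * ‖G (m + j)‖ := by
        rw [← norm_mul, h2]
        refine (norm_sub_le _ _).trans ?_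
        gcongr
        refine (norm_sum_le _ _).trans (le_of_eq ?_)
        exact Finset.sum_congr rfl fun j _ => norm_mul _ _
      have h4 : ‖G (m + N)‖ = s * (‖q N‖ * ‖G (m + N)‖) := by
        rw [hs]; field_simp
      have h5 : ‖G (m + N)‖ ≤ s * (‖R m‖ + ∑ j ∈ Finset.range N, ‖q j‖ * ‖G (m + j)‖) := by
        rw [h4]
        exact mul_le_mul_of_nonneg_left h3 hs0.le
      rcases Nat.eq_zero_or_pos N with hN | hN
      · subst hN
        simp only [Finset.range_zero, Finset.sum_empty, add_zero] at h5 ⊢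
        have h6 := hRU m
        have h7 : s * ‖R m‖ ≤ s * U m := mul_le_mul_of_nonneg_left h6 hs0.le
        have h8 := hU0 m
        rw [hC]
        nlinarith
      · obtain ⟨p, hp⟩ : ∃ p, m + N = p + 1 := ⟨m + N - 1, by omega⟩
        have h6 : ∑ j ∈ Finset.range N, ‖q j‖ * ‖G (m + j)‖ ≤
            (∑ j ∈ Finset.range N, ‖q j‖) * (C * U p) := by
          rw [Finset.sum_mul]
          refine Finset.sum_le_sum fun j hj => ?_
          have hj' := Finset.mem_range.mp hj
          have h7 : ‖G (m + j)‖ ≤ C * U (m + j) := ih (m + j) (by omega)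
          have h8 : U (m + j) ≤ U p := hUm (by omega)
          refine mul_le_mul_of_nonneg_left (h7.trans ?_) (norm_nonneg _)
          exact mul_le_mul_of_nonneg_left h8 (by linarith)
        have h7 : ‖R m‖ ≤ U p := (hRU m).trans (hUm (by omega))
        have h8 : ‖G (m + N)‖ ≤ s * (U p + (∑ j ∈ Finset.range N, ‖q j‖) * (C * U p)) :=
          h5.trans (mul_le_mul_of_nonneg_left (add_le_add h7 h6) hs0.le)
        have h9 : s * (U p + (∑ j ∈ Finset.range N, ‖q j‖) * (C * U p)) =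
            s * U p + S * (C * U p) := by rw [hS]; ring
        rw [h9] at h8
        rw [hp] at h8 ⊢
        rw [hUs p]
        have h10 := hU0 p
        have h11 := norm_nonneg (R (p + 1))
        have h12 : s * U p ≤ C * U p := mul_le_mul_of_nonneg_right (by linarith) h10
        have h13 : C * (B * U p + ‖R (p + 1)‖) = S * (C * U p) + C * U p + C * ‖R (p + 1)‖ := by
          rw [hB]; ring
        rw [h13]
        have h14 : 0 ≤ C * ‖R (p + 1)‖ := mul_nonneg (by linarith) h11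
        linarith

/-! ### kDq -/

theorem dec_quot (N : ℕ) (q : ℕ → ℂ) (hq : q N ≠ 0) (W : ℕ → ℝ) (hW : ∀ k, 0 < W k)
    (hW2 : ∀ k l, l ≤ k → ((k - l).factorial : ℝ) * W l ≤ W k) (g : ℕ → ℂ) (hg : Dec g)
    (G : ℕ → ℂ) (hG : ∀ k, ∑ j ∈ Finset.range (N + 1), q j * G (k + j) = (W k : ℂ) * g k) :
    Dec (fun k => G k / (W k : ℂ)) := by
  obtain ⟨C, B, hC, hB, hrec⟩ := rec_growth N q hq
  intro ρ hρ
  obtain ⟨M, hM⟩ := hg ρ hρ
  have hM0 : 0 ≤ M := le_trans (by positivity) (hM 0)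
  obtain ⟨A, hA⟩ : ∃ A, A = ∑ j ∈ Finset.range N, ‖G j‖ := ⟨_, rfl⟩
  have hA0 : 0 ≤ A := by rw [hA]; exact Finset.sum_nonneg fun _ _ => norm_nonneg _
  have hBρ : 0 ≤ B * ρ := by positivity
  have hW0 := hW 0
  refine ⟨C * A / W 0 * Real.exp (B * ρ) + C * M * Real.exp (B * ρ), fun k => ?_⟩
  have hWk := hW k
  have h1 := hrec G (fun k => (W k : ℂ) * g k) hG k
  rw [← hA] at h1
  have h2 : ∀ l, ‖(W l : ℂ) * g l‖ = W l * ‖g l‖ := by
    intro l
    rw [norm_mul, Complex.norm_real, Real.norm_eq_abs, abs_of_pos (hW l)]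
  have h3 : ‖G k / (W k : ℂ)‖ * ρ ^ k = ‖G k‖ * (ρ ^ k / W k) := by
    rw [norm_div, Complex.norm_real, Real.norm_eq_abs, abs_of_pos hWk]
    ring
  show ‖G k / (W k : ℂ)‖ * ρ ^ k ≤ _
  rw [h3]
  have h4 : 0 ≤ ρ ^ k / W k := by positivity
  refine (mul_le_mul_of_nonneg_right h1 h4).trans ?_
  have h5 : C * (B ^ k * A + ∑ l ∈ Finset.range (k + 1), B ^ (k - l) * ‖(W l : ℂ) * g l‖) *
      (ρ ^ k / W k) = C * (B ^ k * A * (ρ ^ k / W k)) +
      C * ∑ l ∈ Finset.range (k + 1), B ^ (k - l) * (W l * ‖g l‖) * (ρ ^ k / W k) := by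
    rw [← Finset.sum_mul]
    have h6 : ∑ l ∈ Finset.range (k + 1), B ^ (k - l) * ‖(W l : ℂ) * g l‖ =
        ∑ l ∈ Finset.range (k + 1), B ^ (k - l) * (W l * ‖g l‖) :=
      Finset.sum_congr rfl fun l _ => by rw [h2]
    rw [h6]
    ring
  show C * (B ^ k * A + ∑ l ∈ Finset.range (k + 1), B ^ (k - l) * ‖(W l : ℂ) * g l‖) *
      (ρ ^ k / W k) ≤ _
  rw [h5]
  have hWk2 : (k.factorial : ℝ) * W 0 ≤ W k := by
    have := hW2 k 0 (Nat.zero_le k)
    simpa using this
  have hfk : (0 : ℝ) < k.factorial := by exact_mod_cast Nat.factorial_pos k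
  apply add_le_add
  · have h7 : ρ ^ k / W k ≤ ρ ^ k / ((k.factorial : ℝ) * W 0) := by
      apply div_le_div_of_nonneg_left (by positivity) (by positivity) hWk2
    have h8 : (B * ρ) ^ k / (k.factorial : ℝ) ≤ Real.exp (B * ρ) :=
      Real.pow_div_factorial_le_exp _ hBρ k
    calc C * (B ^ k * A * (ρ ^ k / W k)) ≤ C * (B ^ k * A * (ρ ^ k / ((k.factorial : ℝ) * W 0))) := by
          apply mul_le_mul_of_nonneg_left _ hC
          apply mul_le_mul_of_nonneg_left h7 (by positivity)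
      _ = C * A / W 0 * ((B * ρ) ^ k / (k.factorial : ℝ)) := by
          rw [mul_pow]
          field_simp
      _ ≤ C * A / W 0 * Real.exp (B * ρ) := by
          apply mul_le_mul_of_nonneg_left h8 (by positivity)
  · rw [mul_assoc]
    apply mul_le_mul_of_nonneg_left _ hC
    have h9 : ∀ l ∈ Finset.range (k + 1), B ^ (k - l) * (W l * ‖g l‖) * (ρ ^ k / W k) ≤
        M * ((B * ρ) ^ (k - l) / ((k - l).factorial : ℝ)) := by
      intro l hl
      have hlk : l ≤ k := Nat.lt_succ_iff.1 (Finset.mem_range.1 hl)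
      have hf : (0 : ℝ) < (k - l).factorial := by exact_mod_cast Nat.factorial_pos _
      have hr : ρ ^ k = ρ ^ (k - l) * ρ ^ l := by rw [← pow_add]; congr 1; omega
      have h10 : W l / W k ≤ 1 / ((k - l).factorial : ℝ) := by
        rw [div_le_div_iff₀ hWk hf]
        have := hW2 k l hlk
        linarith
      calc B ^ (k - l) * (W l * ‖g l‖) * (ρ ^ k / W k)
          = (B * ρ) ^ (k - l) * (W l / W k) * (‖g l‖ * ρ ^ l) := by
            rw [hr, mul_pow]; ring
        _ ≤ (B * ρ) ^ (k - l) * (1 / ((k - l).factorial : ℝ)) * M := by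
            apply mul_le_mul
            · exact mul_le_mul_of_nonneg_left h10 (by positivity)
            · exact hM l
            · positivity
            · positivity
        _ = M * ((B * ρ) ^ (k - l) / ((k - l).factorial : ℝ)) := by ring
    refine (Finset.sum_le_sum h9).trans ?_
    rw [← Finset.mul_sum]
    apply mul_le_mul_of_nonneg_left _ hM0
    have h11 := Finset.sum_flip (n := k) (fun j => (B * ρ) ^ j / (j.factorial : ℝ))
    have h12 : ∑ i ∈ Finset.range (k + 1), (B * ρ) ^ (k - i) / ((k - i).factorial : ℝ) =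
        ∑ j ∈ Finset.range (k + 1), (B * ρ) ^ j / (j.factorial : ℝ) := h11
    rw [h12]
    exact Real.sum_le_exp_of_nonneg hBρ _

/-! ### kDr -/

/-- the polynomial with coefficients `q i`, `i ≤ N`, as a power series -/
noncomputable def kDr_kDrQs (N : ℕ) (q : ℕ → ℂ) : PowerSeries ℂ :=
  PowerSeries.mk (fun i => if i ≤ N then q i else 0)

theorem kDr_kDr_cv (N : ℕ) (q b : ℕ → ℂ) (k : ℕ) :
    PowerSeries.coeff k (kDr_kDrQs N q * PowerSeries.mk b) = cv N q b k := by
  rw [PowerSeries.coeff_mul, Finset.Nat.sum_antidiagonal_eq_sum_range_succ_mk]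
  simp only [kDr_kDrQs, PowerSeries.coeff_mk, cv]
  have h1 : ∑ i ∈ Finset.range (k + 1), (if i ≤ N then q i else 0) * b (k - i) =
      ∑ i ∈ Finset.range (k + 1) with i ≤ N, q i * b (k - i) := by
    rw [Finset.sum_filter]
    refine Finset.sum_congr rfl (fun i _ => ?_)
    split_ifs <;> simp
  have h2 : (∑ i ∈ Finset.range (N + 1), if i ≤ k then q i * b (k - i) else 0) =
      ∑ i ∈ Finset.range (N + 1) with i ≤ k, q i * b (k - i) := by
    rw [Finset.sum_filter]
  have h1' : ∑ i ∈ Finset.range k.succ, (if i ≤ N then q i else 0) * b (k - i) =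
      ∑ i ∈ Finset.range (k + 1) with i ≤ N, q i * b (k - i) := h1
  rw [h1', h2]
  refine Finset.sum_congr ?_ (fun _ _ => rfl)
  ext i
  simp only [Finset.mem_filter, Finset.mem_range]
  omega

theorem kDr_kDr_factor (N : ℕ) (q : ℕ → ℂ) (hq : q (N + 1) ≠ 0) :
    ∃ (x : ℂ) (q' : ℕ → ℂ), q' N ≠ 0 ∧
      kDr_kDrQs (N + 1) q = (PowerSeries.X - PowerSeries.C x) * kDr_kDrQs N q' := by
  classical
  set Q : Polynomial ℂ := ∑ i ∈ Finset.range (N + 2), Polynomial.C (q i) * Polynomial.X ^ i with hQ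
  have hcoef : ∀ k, Q.coeff k = if k ≤ N + 1 then q k else 0 := by
    intro k
    rw [hQ, Polynomial.finsetSum_coeff]
    simp only [Polynomial.coeff_C_mul_X_pow]
    rw [Finset.sum_ite_eq (Finset.range (N + 2)) k q]
    simp only [Finset.mem_range]
    by_cases h : k ≤ N + 1
    · rw [if_pos (by omega), if_pos h]
    · rw [if_neg (by omega), if_neg h]
  have hdeg : Q.natDegree = N + 1 := by
    apply le_antisymm
    · rw [Polynomial.natDegree_le_iff_coeff_eq_zero]
      intro k hk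
      rw [hcoef, if_neg (by omega)]
    · apply Polynomial.le_natDegree_of_ne_zero
      rw [hcoef, if_pos le_rfl]; exact hq
  have hQ0 : Q ≠ 0 := by
    intro h
    rw [h] at hdeg
    simp at hdeg
  obtain ⟨x, hx⟩ := IsAlgClosed.exists_root Q (by
    intro h
    have := Polynomial.natDegree_eq_zero_iff_degree_le_zero.2 h.le
    omega)
  obtain ⟨P, hP⟩ := Polynomial.dvd_iff_isRoot.2 hx
  have hP0 : P ≠ 0 := by
    rintro rfl
    exact hQ0 (by rw [hP, mul_zero])
  have hPdeg : P.natDegree = N := by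
    have h1 := Polynomial.natDegree_mul (Polynomial.X_sub_C_ne_zero x) hP0
    rw [← hP, hdeg, Polynomial.natDegree_X_sub_C] at h1
    omega
  refine ⟨x, fun i => P.coeff i, ?_, ?_⟩
  · have : P.leadingCoeff ≠ 0 := Polynomial.leadingCoeff_ne_zero.2 hP0
    rwa [Polynomial.leadingCoeff, hPdeg] at this
  · have h1 : kDr_kDrQs (N + 1) q = (Q : PowerSeries ℂ) := by
      ext k
      rw [kDr_kDrQs, PowerSeries.coeff_mk, Polynomial.coeff_coe, hcoef]
    have h2 : kDr_kDrQs N (fun i => P.coeff i) = (P : PowerSeries ℂ) := by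
      ext k
      rw [kDr_kDrQs, PowerSeries.coeff_mk, Polynomial.coeff_coe]
      split_ifs with h
      · rfl
      · exact (Polynomial.coeff_eq_zero_of_natDegree_lt (by omega)).symm
    rw [h1, h2, hP, Polynomial.coe_mul, Polynomial.coe_sub, Polynomial.coe_X, Polynomial.coe_C]

theorem kDr_kDr_div (x : ℂ) (d : ℕ → ℂ) (hd : Dec d) :
    ∃ (d' : ℕ → ℂ) (s : ℂ), Dec d' ∧ (∀ k, d (k + 1) = d' k - x * d' (k + 1)) ∧
      d 0 = s - x * d' 0 := by
  have key : ∀ ρ : ℝ, 0 < ρ → ∃ σ M : ℝ, ρ ≤ σ ∧ 1 ≤ σ ∧ 0 ≤ M ∧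
      ∀ k j, ‖d (k + j) * x ^ j‖ ≤ M / σ ^ k * (1 / 2) ^ j := by
    intro ρ hρ
    set σ : ℝ := max ρ (2 * ‖x‖ + 1) with hσ
    have h1 : ρ ≤ σ := le_max_left _ _
    have h2 : 2 * ‖x‖ + 1 ≤ σ := le_max_right _ _
    have hx0 := norm_nonneg x
    have h3 : 0 < σ := by linarith
    obtain ⟨M, hM⟩ := hd σ h3
    have hM0 : 0 ≤ M := by
      have := hM 0
      have h4 := norm_nonneg (d 0)
      simp only [pow_zero, mul_one] at this
      linarith
    refine ⟨σ, M, h1, by linarith, hM0, ?_⟩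
    intro k j
    have h5 := hM (k + j)
    have h6 : ‖d (k + j)‖ ≤ M / σ ^ (k + j) := by
      rw [le_div_iff₀ (by positivity)]; exact h5
    have h7 : ‖x‖ ^ j ≤ (σ * (1 / 2)) ^ j := by
      apply pow_le_pow_left₀ hx0
      linarith
    rw [norm_mul, norm_pow]
    calc ‖d (k + j)‖ * ‖x‖ ^ j ≤ M / σ ^ (k + j) * (σ * (1 / 2)) ^ j := by gcongr
      _ = M / σ ^ k * (1 / 2) ^ j := by
        rw [pow_add, mul_pow]
        field_simp
  have hsum : ∀ k, Summable (fun j => d (k + j) * x ^ j) := by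
    intro k
    obtain ⟨σ, M, -, h1, hM, h2⟩ := key 1 one_pos
    exact Summable.of_norm_bounded
      ((summable_geometric_of_lt_one (by norm_num) (by norm_num)).mul_left (M / σ ^ k)) (h2 k)
  have hrec : ∀ k, ∑' j, d (k + j) * x ^ j = d k + x * ∑' j, d (k + 1 + j) * x ^ j := by
    intro k
    rw [(hsum k).tsum_eq_zero_add, ← tsum_mul_left]
    simp only [add_zero, pow_zero, mul_one]
    congr 1
    apply tsum_congr
    intro j
    rw [show k + (j + 1) = k + 1 + j by ring, pow_succ]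
    ring
  refine ⟨fun k => ∑' j, d (k + 1 + j) * x ^ j, ∑' j, d (0 + j) * x ^ j, ?_, ?_, ?_⟩
  · intro ρ hρ
    obtain ⟨σ, M, h0, h1, hM, h2⟩ := key ρ hρ
    refine ⟨2 * M, fun k => ?_⟩
    have h3 : ‖∑' j, d (k + 1 + j) * x ^ j‖ ≤ M / σ ^ (k + 1) * 2 :=
      tsum_of_norm_bounded (hasSum_geometric_two.mul_left (M / σ ^ (k + 1))) (h2 (k + 1))
    have h4 : 0 < σ := by linarith
    calc ‖∑' j, d (k + 1 + j) * x ^ j‖ * ρ ^ k ≤ (M / σ ^ (k + 1) * 2) * σ ^ k := by gcongr
      _ = 2 * M / σ := by rw [pow_succ]; field_simp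
      _ ≤ 2 * M := div_le_self (by linarith) h1
  · intro k
    have := hrec (k + 1)
    simp only []
    rw [this]; ring
  · have := hrec 0
    simp only [zero_add] at this ⊢
    rw [this]; ring

/-- division with remainder of an entire function by a polynomial -/
theorem div_rem (N : ℕ) (q : ℕ → ℂ) (hq : q N ≠ 0) (d : ℕ → ℂ) (hd : Dec d) :
    ∃ b r : ℕ → ℂ, Dec b ∧ (∀ k, N ≤ k → r k = 0) ∧ ∀ k, d k = cv N q b k + r k := by
  induction N generalizing q d with
  | zero =>
    refine ⟨fun k => d k / q 0, fun _ => 0, ?_, fun _ _ => rfl, ?_⟩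
    · intro ρ hρ
      obtain ⟨M, hM⟩ := hd ρ hρ
      refine ⟨M / ‖q 0‖, fun k => ?_⟩
      rw [norm_div, div_mul_eq_mul_div]
      exact div_le_div_of_nonneg_right (hM k) (norm_nonneg _)
    · intro k
      simp only [cv, zero_add, Finset.range_one, Finset.sum_singleton, Nat.zero_le, if_true,
        Nat.sub_zero, add_zero]
      field_simp
  | succ N ih =>
    obtain ⟨x, q', hq', hfac⟩ := kDr_kDr_factor N q hq
    obtain ⟨d', s, hd', h1, h2⟩ := kDr_kDr_div x d hd
    obtain ⟨b, r', hb, hr', hdr⟩ := ih q' hq' d' hd'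
    refine ⟨b, fun k => PowerSeries.coeff k ((PowerSeries.X - PowerSeries.C x) *
      PowerSeries.mk r' + PowerSeries.C s), hb, ?_, ?_⟩
    · intro k hk
      obtain ⟨m, rfl⟩ : ∃ m, k = m + 1 := ⟨k - 1, by omega⟩
      simp only [map_add, sub_mul, map_sub, PowerSeries.coeff_succ_X_mul, PowerSeries.coeff_C_mul,
        PowerSeries.coeff_mk, PowerSeries.coeff_C]
      rw [hr' m (by omega), hr' (m + 1) (by omega)]
      simp
    · have e1 : PowerSeries.mk d' = kDr_kDrQs N q' * PowerSeries.mk b + PowerSeries.mk r' := by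
        ext k
        rw [map_add, kDr_kDr_cv, PowerSeries.coeff_mk, PowerSeries.coeff_mk, hdr k]
      have e2 : PowerSeries.mk d = (PowerSeries.X - PowerSeries.C x) * PowerSeries.mk d' +
          PowerSeries.C s := by
        ext k
        rcases k with _ | k
        · simp only [map_add, sub_mul, map_sub, PowerSeries.coeff_zero_X_mul,
            PowerSeries.coeff_C_mul, PowerSeries.coeff_mk, PowerSeries.coeff_zero_C]
          rw [h2]; ring
        · simp only [map_add, sub_mul, map_sub, PowerSeries.coeff_succ_X_mul,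
            PowerSeries.coeff_C_mul, PowerSeries.coeff_mk, PowerSeries.coeff_C]
          rw [h1 k]; simp
      intro k
      have e3 : PowerSeries.mk d = kDr_kDrQs (N + 1) q * PowerSeries.mk b +
          ((PowerSeries.X - PowerSeries.C x) * PowerSeries.mk r' + PowerSeries.C s) := by
        rw [e2, e1, hfac]; ring
      have e4 := congrArg (PowerSeries.coeff k) e3
      rw [map_add, kDr_kDr_cv, PowerSeries.coeff_mk] at e4
      exact e4

/-! ### kSb -/

/-- there are `N` linearly independent solutions of the recurrence -/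
theorem sol_basis (N : ℕ) (q : ℕ → ℂ) (hq : q N ≠ 0) :
    ∃ e : Fin N → ℕ → ℂ, (∀ c : Fin N → ℂ, (∀ k, ∑ i, c i * e i k = 0) → c = 0) ∧
      ∀ i k, ∑ j ∈ Finset.range (N + 1), q j * e i (k + j) = 0 := by
  let E : LinearRecurrence ℂ := { order := N, coeffs := fun i => -(q N)⁻¹ * q i }
  refine ⟨fun i => E.mkSol (fun j : Fin N => if j = i then (1 : ℂ) else 0), ?_, ?_⟩
  · intro c hc
    funext i0
    have h := hc (i0 : ℕ)
    have h2 : ∀ i : Fin N, E.mkSol (fun j : Fin N => if j = i then (1 : ℂ) else 0) (i0 : ℕ) =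
        if i0 = i then (1 : ℂ) else 0 := fun i =>
      E.mkSol_eq_init (fun j : Fin N => if j = i then (1 : ℂ) else 0) i0
    simp only [h2] at h
    simpa using h
  · intro i k
    have h := E.is_sol_mkSol (fun j : Fin N => if j = i then (1 : ℂ) else 0) k
    set u : ℕ → ℂ := E.mkSol (fun j : Fin N => if j = i then (1 : ℂ) else 0) with hu
    change u (k + N) = ∑ j : Fin N, (-(q N)⁻¹ * q j) * u (k + j) at h
    change ∑ j ∈ Finset.range (N + 1), q j * u (k + j) = 0
    rw [Finset.sum_range_succ, h, Finset.mul_sum, ← Fin.sum_univ_eq_sum_range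
      (fun j => q j * u (k + j)) N, ← Finset.sum_add_distrib]
    apply Finset.sum_eq_zero
    intro j _
    field_simp
    ring

/-! ### kSm -/

theorem span_mod {E : Type*} [AddCommGroup E] [Module ℂ E] (S : Submodule ℂ E) (V : Set E)
    (N : ℕ) (u v : Fin N → E) (hu : ∀ x ∈ V, ∃ c : Fin N → ℂ, x - ∑ i, c i • u i ∈ S)
    (hvV : ∀ i, v i ∈ V) (hv : ∀ c : Fin N → ℂ, ∑ i, c i • v i ∈ S → c = 0)
    (x : E) (hx : x ∈ V) : ∃ c : Fin N → ℂ, x - ∑ i, c i • v i ∈ S := by
  classical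
  set ub : Fin N → E ⧸ S := fun i => Submodule.Quotient.mk (u i) with hub
  set vb : Fin N → E ⧸ S := fun i => Submodule.Quotient.mk (v i) with hvb
  have hmkv : ∀ c : Fin N → ℂ, (Submodule.Quotient.mk (∑ i, c i • v i) : E ⧸ S) = ∑ i, c i • vb i := by
    intro c
    have h := map_sum S.mkQ (fun i => c i • v i) Finset.univ
    calc (Submodule.Quotient.mk (∑ i, c i • v i) : E ⧸ S) = S.mkQ (∑ i, c i • v i) := rfl
      _ = ∑ i, S.mkQ (c i • v i) := h
      _ = ∑ i, c i • vb i := by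
          refine Finset.sum_congr rfl fun i _ => ?_
          rw [map_smul]
          rfl
  have hmku : ∀ c : Fin N → ℂ, (Submodule.Quotient.mk (∑ i, c i • u i) : E ⧸ S) = ∑ i, c i • ub i := by
    intro c
    have h := map_sum S.mkQ (fun i => c i • u i) Finset.univ
    calc (Submodule.Quotient.mk (∑ i, c i • u i) : E ⧸ S) = S.mkQ (∑ i, c i • u i) := rfl
      _ = ∑ i, S.mkQ (c i • u i) := h
      _ = ∑ i, c i • ub i := by
          refine Finset.sum_congr rfl fun i _ => ?_
          rw [map_smul]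
          rfl
  have hli : LinearIndependent ℂ vb := by
    rw [Fintype.linearIndependent_iff]
    intro g hg
    rw [← hmkv, Submodule.Quotient.mk_eq_zero] at hg
    have h0 := hv g hg
    intro i
    rw [h0]
    rfl
  have himg : ∀ y ∈ V, (Submodule.Quotient.mk y : E ⧸ S) ∈ Submodule.span ℂ (Set.range ub) := by
    intro y hy
    obtain ⟨c, hc⟩ := hu y hy
    rw [← Submodule.Quotient.eq, hmku] at hc
    rw [hc, Submodule.mem_span_range_iff_exists_fun]
    exact ⟨c, rfl⟩
  have hle : Submodule.span ℂ (Set.range vb) ≤ Submodule.span ℂ (Set.range ub) := by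
    rw [Submodule.span_le]
    rintro _ ⟨i, rfl⟩
    exact himg _ (hvV i)
  have hfv : Module.finrank ℂ (Submodule.span ℂ (Set.range vb)) = N := by
    rw [finrank_span_eq_card hli, Fintype.card_fin]
  have hfu : Module.finrank ℂ (Submodule.span ℂ (Set.range ub)) ≤ N := by
    have := finrank_range_le_card (R := ℂ) ub
    simpa [Set.finrank] using this
  haveI : FiniteDimensional ℂ (Submodule.span ℂ (Set.range ub)) :=
    FiniteDimensional.span_of_finite ℂ (Set.finite_range ub)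
  have heq : Submodule.span ℂ (Set.range vb) = Submodule.span ℂ (Set.range ub) :=
    Submodule.eq_of_le_of_finrank_le hle (by rw [hfv]; exact hfu)
  have hxm := himg x hx
  rw [← heq, Submodule.mem_span_range_iff_exists_fun] at hxm
  obtain ⟨c, hc⟩ := hxm
  refine ⟨c, ?_⟩
  rw [← Submodule.Quotient.eq, hmkv, hc]

/-! ### kRs -/

noncomputable def kRs_recG36149 (N : ℕ) (q R : ℕ → ℂ) (k : ℕ) : ℂ :=
  if k < N then 0 else
    (q N)⁻¹ * (R (k - N) - ∑ j : Fin N, q j * kRs_recG36149 N q R (k - N + j))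
termination_by k
decreasing_by
  have := j.2
  omega

theorem kRs_recG36149_eq (N : ℕ) (q R : ℕ → ℂ) (k : ℕ) :
    kRs_recG36149 N q R (k + N) =
      (q N)⁻¹ * (R k - ∑ j ∈ Finset.range N, q j * kRs_recG36149 N q R (k + j)) := by
  rw [kRs_recG36149]
  have h : ¬ (k + N < N) := by omega
  rw [if_neg h, Nat.add_sub_cancel]
  rw [Finset.sum_range (fun j => q j * kRs_recG36149 N q R (k + j))]

theorem rec_solve (N : ℕ) (q : ℕ → ℂ) (hq : q N ≠ 0) (R : ℕ → ℂ) :
    ∃ G : ℕ → ℂ, ∀ k, ∑ j ∈ Finset.range (N + 1), q j * G (k + j) = R k := by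
  refine ⟨kRs_recG36149 N q R, fun k => ?_⟩
  rw [Finset.sum_range_succ, kRs_recG36149_eq, ← mul_assoc, mul_inv_cancel₀ hq, one_mul]
  ring

/-! ### kRy -/

theorem kRy_rs_dec_add (b b' : ℕ → ℂ) (h : Dec b) (h' : Dec b') : Dec (b + b') := by
  intro ρ hρ
  obtain ⟨M, hM⟩ := h ρ hρ
  obtain ⟨M', hM'⟩ := h' ρ hρ
  refine ⟨M + M', fun k => ?_⟩
  calc ‖(b + b') k‖ * ρ ^ k ≤ (‖b k‖ + ‖b' k‖) * ρ ^ k := by
        apply mul_le_mul_of_nonneg_right _ (by positivity)
        exact norm_add_le _ _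
    _ = ‖b k‖ * ρ ^ k + ‖b' k‖ * ρ ^ k := by ring
    _ ≤ M + M' := add_le_add (hM k) (hM' k)

theorem kRy_rs_dec_smul (c : ℂ) (b : ℕ → ℂ) (h : Dec b) : Dec (c • b) := by
  intro ρ hρ
  obtain ⟨M, hM⟩ := h ρ hρ
  refine ⟨‖c‖ * M, fun k => ?_⟩
  rw [Pi.smul_apply, norm_smul, mul_assoc]
  exact mul_le_mul_of_nonneg_left (hM k) (norm_nonneg _)

theorem kRy_rs_dec_zero : Dec (fun _ => 0) := by
  intro ρ _
  exact ⟨0, fun k => by simp⟩

theorem kRy_rs_cv_add (N : ℕ) (q b b' : ℕ → ℂ) : cv N q (b + b') = cv N q b + cv N q b' := by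
  funext k
  unfold cv
  rw [Pi.add_apply, ← Finset.sum_add_distrib]
  apply Finset.sum_congr rfl
  intro i _
  split_ifs
  · rw [Pi.add_apply, mul_add]
  · rw [add_zero]

theorem kRy_rs_cv_smul (N : ℕ) (q : ℕ → ℂ) (c : ℂ) (b : ℕ → ℂ) : cv N q (c • b) = c • cv N q b := by
  funext k
  unfold cv
  rw [Pi.smul_apply, smul_eq_mul, Finset.mul_sum]
  apply Finset.sum_congr rfl
  intro i _
  split_ifs
  · rw [Pi.smul_apply, smul_eq_mul]; ring
  · rw [mul_zero]

theorem kRy_rs_cv_zero (N : ℕ) (q : ℕ → ℂ) : cv N q 0 = 0 := by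
  funext k
  unfold cv
  simp

/-- the sequences `cv N q b` -/
noncomputable def kRy_rsS (N : ℕ) (q : ℕ → ℂ) : Submodule ℂ (ℕ → ℂ) where
  carrier := {x | ∃ b, Dec b ∧ x = cv N q b}
  add_mem' := by
    rintro _ _ ⟨b, hb, rfl⟩ ⟨b', hb', rfl⟩
    exact ⟨b + b', kRy_rs_dec_add b b' hb hb', (kRy_rs_cv_add N q b b').symm⟩
  zero_mem' := ⟨0, kRy_rs_dec_zero, (kRy_rs_cv_zero N q).symm⟩
  smul_mem' := by
    rintro c _ ⟨b, hb, rfl⟩
    exact ⟨c • b, kRy_rs_dec_smul c b hb, (kRy_rs_cv_smul N q c b).symm⟩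

/-- solvability on one ray -/
theorem ray_surj (N : ℕ) (q : ℕ → ℂ) (hq : q N ≠ 0) (W : ℕ → ℝ) (hW : ∀ k, 0 < W k)
    (hW2 : ∀ k l, l ≤ k → ((k - l).factorial : ℝ) * W l ≤ W k) (g : ℕ → ℂ) (hg : Dec g) :
    ∃ b : ℕ → ℂ, Dec b ∧ ∀ k, ∑ j ∈ Finset.range (N + 1), (starRingEnd ℂ) (q j) *
      ((W (k + j) : ℂ) * cv N q b (k + j)) = (W k : ℂ) * g k := by
  obtain ⟨q', hq'⟩ : ∃ q' : ℕ → ℂ, q' = fun j => (starRingEnd ℂ) (q j) := ⟨_, rfl⟩
  have hq'j : ∀ j, q' j = (starRingEnd ℂ) (q j) := fun j => by rw [hq']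
  have hq'N : q' N ≠ 0 := by
    rw [hq'j]
    intro h
    exact hq ((map_eq_zero _).mp h)
  have hWc : ∀ k, (W k : ℂ) ≠ 0 := fun k => by
    exact_mod_cast (hW k).ne'
  obtain ⟨G0, hG0⟩ := rec_solve N q' hq'N (fun k => (W k : ℂ) * g k)
  have hd0 : Dec (fun k => G0 k / (W k : ℂ)) := dec_quot N q' hq'N W hW hW2 g hg G0 hG0
  obtain ⟨e, he1, he2⟩ := sol_basis N q' hq'N
  have hv : ∀ i, Dec (fun k => e i k / (W k : ℂ)) := by
    intro i
    apply dec_quot N q' hq'N W hW hW2 (fun _ => 0) kRy_rs_dec_zero (e i)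
    intro k
    rw [he2 i k, mul_zero]
  obtain ⟨v, hvdef⟩ : ∃ v : Fin N → (ℕ → ℂ), v = fun i k => e i k / (W k : ℂ) := ⟨_, rfl⟩
  have hcomb : ∀ (c : Fin N → ℂ) (k : ℕ), (W k : ℂ) * (∑ i, c i • v i) k = ∑ i, c i * e i k := by
    intro c k
    rw [Finset.sum_apply, Finset.mul_sum]
    apply Finset.sum_congr rfl
    intro i _
    rw [hvdef, Pi.smul_apply, smul_eq_mul]
    have := hWc k
    field_simp
  have hhom : ∀ (c : Fin N → ℂ) (k : ℕ),
      ∑ j ∈ Finset.range (N + 1), q' j * ∑ i, c i * e i (k + j) = 0 := by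
    intro c k
    have h1 : ∑ j ∈ Finset.range (N + 1), q' j * ∑ i, c i * e i (k + j)
        = ∑ i, c i * ∑ j ∈ Finset.range (N + 1), q' j * e i (k + j) := by
      simp only [Finset.mul_sum]
      rw [Finset.sum_comm]
      apply Finset.sum_congr rfl
      intro i _
      apply Finset.sum_congr rfl
      intro j _
      ring
    rw [h1]
    simp only [he2, mul_zero, Finset.sum_const_zero]
  have H1 : ∀ x ∈ {d : ℕ → ℂ | Dec d}, ∃ c : Fin N → ℂ,
      x - ∑ i, c i • (fun (i : Fin N) (k : ℕ) => if k = (i : ℕ) then (1 : ℂ) else 0) i ∈ kRy_rsS N q := by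
    intro x hx
    obtain ⟨b, r, hb, hr, hxe⟩ := div_rem N q hq x hx
    refine ⟨fun i => r i, b, hb, ?_⟩
    funext k
    rw [Pi.sub_apply, hxe k, Finset.sum_apply]
    have h2 : ∑ i : Fin N, ((fun i : Fin N => r i) i • fun k => if k = (i : ℕ) then (1 : ℂ) else 0) k
        = r k := by
      by_cases hk : k < N
      · rw [Finset.sum_eq_single (⟨k, hk⟩ : Fin N)]
        · simp
        · intro i _ hi
          have : k ≠ (i : ℕ) := by
            intro h
            apply hi
            exact Fin.ext h.symm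
          simp [this]
        · intro h; exact absurd (Finset.mem_univ _) h
      · rw [hr k (by omega)]
        apply Finset.sum_eq_zero
        intro i _
        have : k ≠ (i : ℕ) := by have := i.2; omega
        simp [this]
    rw [h2]
    ring
  have H2 : ∀ i, v i ∈ {d : ℕ → ℂ | Dec d} := by
    intro i
    change Dec (v i)
    rw [hvdef]
    exact hv i
  have H3 : ∀ c : Fin N → ℂ, ∑ i, c i • v i ∈ kRy_rsS N q → c = 0 := by
    rintro c ⟨b, hb, hbe⟩
    have hz : ∀ k, cv N q b k = 0 := by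
      intro k
      apply block_zero N q hq b W hW hb
      intro k
      change ∑ j ∈ Finset.range (N + 1), (starRingEnd ℂ) (q j) *
        ((W (k + j) : ℂ) * cv N q b (k + j)) = 0
      rw [← hbe]
      simp only [hcomb, ← hq'j]
      exact hhom c k
    apply he1
    intro k
    rw [← hcomb c k, hbe, hz k, mul_zero]
  obtain ⟨c, hc⟩ := span_mod (kRy_rsS N q) {d | Dec d} N
    (fun i k => if k = (i : ℕ) then (1 : ℂ) else 0) v H1 H2 H3 (fun k => G0 k / (W k : ℂ)) hd0
  obtain ⟨b, hb, hbe⟩ := hc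
  refine ⟨b, hb, ?_⟩
  intro k
  have h1 : ∀ l, (W l : ℂ) * cv N q b l = G0 l - ∑ i, c i * e i l := by
    intro l
    rw [← hbe, Pi.sub_apply, mul_sub, hcomb]
    have := hWc l
    congr 1
    field_simp
  simp only [h1, ← hq'j, mul_sub, Finset.sum_sub_distrib]
  rw [hG0, hhom, sub_zero]

/-! ### kAp -/

/-- a bound for the solution if the weights grow fast -/
theorem apriori (N : ℕ) (q : ℕ → ℂ) (hq : q N ≠ 0) :
    ∃ ρ₀ C : ℝ, 1 ≤ ρ₀ ∧ 0 ≤ C ∧ ∀ ρ : ℝ, ρ₀ ≤ ρ → ∃ w₀ : ℝ, 1 ≤ w₀ ∧ ∀ W : ℕ → ℝ,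
      (∀ k, 0 < W k) → (∀ k, w₀ * W k ≤ W (k + 1)) → ∀ b g : ℕ → ℂ, Dec b →
      (∀ k, ∑ j ∈ Finset.range (N + 1), (starRingEnd ℂ) (q j) *
        ((W (k + j) : ℂ) * cv N q b (k + j)) = (W k : ℂ) * g k) →
      ∀ M : ℝ, (∀ k, ‖g k‖ * ρ ^ k ≤ M) → ∀ k, ‖b k‖ * ρ ^ k ≤ C * M := by
  set c : ℝ := ‖q N‖ with hc
  have hc0 : 0 < c := norm_pos_iff.2 hq
  set S : ℝ := ∑ i ∈ Finset.range (N + 1), ‖q i‖ with hS
  have hS0 : 0 ≤ S := Finset.sum_nonneg fun i _ => norm_nonneg _
  refine ⟨max 1 (4 * S / c), 2 / c ^ 2, le_max_left _ _, by positivity, fun ρ hρ => ?_⟩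
  have hρ1 : 1 ≤ ρ := (le_max_left _ _).trans hρ
  have hρ2 : 4 * S / c ≤ ρ := (le_max_right _ _).trans hρ
  have hρ0 : 0 < ρ := by linarith
  refine ⟨max 1 (4 * S ^ 2 * ρ ^ N / c ^ 2), le_max_left _ _, fun W hW hW1 b g hb hE M hM => ?_⟩
  set w₀ : ℝ := max 1 (4 * S ^ 2 * ρ ^ N / c ^ 2) with hw
  have hw1 : 1 ≤ w₀ := le_max_left _ _
  have hw2 : 4 * S ^ 2 * ρ ^ N / c ^ 2 ≤ w₀ := le_max_right _ _
  have hw0 : 0 < w₀ := by linarith
  have hM0 : 0 ≤ M := le_trans (by positivity) (hM 0)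
  have hmono : ∀ k j, W k ≤ W (k + j) := by
    intro k j
    induction j with
    | zero => exact le_rfl
    | succ j ih =>
      have h1 := hW1 (k + j)
      have h2 : W (k + j) ≤ w₀ * W (k + j) := by nlinarith [hW (k + j)]
      exact ih.trans (h2.trans h1)
  have hstep : ∀ k j, j < N → w₀ * W (k + j) ≤ W (k + N) := by
    intro k j hj
    have h1 := hW1 (k + j)
    have h2 := hmono (k + j + 1) (N - j - 1)
    have h3 : k + j + 1 + (N - j - 1) = k + N := by omega
    rw [h3] at h2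
    exact h1.trans h2
  obtain ⟨M', hM'⟩ := hb ρ hρ0
  have hbdd : BddAbove (Set.range fun k => ‖b k‖ * ρ ^ k) := ⟨M', by
    rintro _ ⟨k, rfl⟩; exact hM' k⟩
  set β : ℝ := ⨆ k, ‖b k‖ * ρ ^ k with hβ
  have hβk : ∀ k, ‖b k‖ * ρ ^ k ≤ β := fun k => le_ciSup hbdd k
  have hβ0 : 0 ≤ β := le_trans (by positivity) (hβk 0)
  have hcv : ∀ k j, ‖cv N q b (k + j)‖ * ρ ^ k ≤ S * (ρ ^ N * β) := by
    intro k j
    unfold cv
    calc ‖∑ i ∈ Finset.range (N + 1), if i ≤ k + j then q i * b (k + j - i) else 0‖ * ρ ^ k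
        ≤ (∑ i ∈ Finset.range (N + 1), ‖if i ≤ k + j then q i * b (k + j - i) else 0‖) * ρ ^ k := by
          gcongr; exact norm_sum_le _ _
      _ = ∑ i ∈ Finset.range (N + 1), ‖if i ≤ k + j then q i * b (k + j - i) else 0‖ * ρ ^ k := by
          rw [Finset.sum_mul]
      _ ≤ ∑ i ∈ Finset.range (N + 1), ‖q i‖ * (ρ ^ N * β) := by
          refine Finset.sum_le_sum fun i hi => ?_
          have hi' : i ≤ N := Nat.lt_succ_iff.1 (Finset.mem_range.1 hi)
          split_ifs with h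
          · rw [norm_mul]
            have h1 := hβk (k + j - i)
            have h2 : ρ ^ k ≤ ρ ^ N * ρ ^ (k + j - i) := by
              rw [← pow_add]
              exact pow_le_pow_right₀ hρ1 (by omega)
            calc ‖q i‖ * ‖b (k + j - i)‖ * ρ ^ k
                ≤ ‖q i‖ * ‖b (k + j - i)‖ * (ρ ^ N * ρ ^ (k + j - i)) := by gcongr
              _ = ‖q i‖ * (ρ ^ N * (‖b (k + j - i)‖ * ρ ^ (k + j - i))) := by ring
              _ ≤ ‖q i‖ * (ρ ^ N * β) := by gcongr
          · rw [norm_zero, zero_mul]; positivity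
      _ = S * (ρ ^ N * β) := by rw [← Finset.sum_mul]
  have hSN : ∑ i ∈ Finset.range N, ‖q i‖ ≤ S := by
    rw [hS, Finset.sum_range_succ]
    linarith [norm_nonneg (q N)]
  have main : ∀ k, c ^ 2 * (‖b k‖ * ρ ^ k) ≤ M + c ^ 2 * β / 2 := by
    intro k
    have hWN := hW (k + N)
    set A : ℂ := ∑ j ∈ Finset.range N, (starRingEnd ℂ) (q j) *
        ((W (k + j) : ℂ) * cv N q b (k + j)) with hA
    set B : ℂ := ∑ i ∈ Finset.range N, q i * b (k + N - i) with hB
    have hcvN : cv N q b (k + N) = B + q N * b k := by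
      unfold cv
      rw [Finset.sum_range_succ, if_pos (by omega), Nat.add_sub_cancel, hB]
      congr 1
      refine Finset.sum_congr rfl fun i hi => ?_
      have := Finset.mem_range.1 hi
      rw [if_pos (by omega)]
    have hEk := hE k
    rw [Finset.sum_range_succ, ← hA, hcvN] at hEk
    have hEk2 : (starRingEnd ℂ) (q N) * q N * (W (k + N) : ℂ) * b k =
        (W k : ℂ) * g k - A - (starRingEnd ℂ) (q N) * (W (k + N) : ℂ) * B := by
      linear_combination hEk
    have hn := congrArg norm hEk2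
    have hL : ‖(starRingEnd ℂ) (q N) * q N * (W (k + N) : ℂ) * b k‖ =
        c ^ 2 * W (k + N) * ‖b k‖ := by
      rw [norm_mul, norm_mul, norm_mul, RCLike.norm_conj, Complex.norm_real, Real.norm_eq_abs,
        abs_of_pos hWN]
      ring
    have hR : ‖(W k : ℂ) * g k - A - (starRingEnd ℂ) (q N) * (W (k + N) : ℂ) * B‖ ≤
        W k * ‖g k‖ + ‖A‖ + c * W (k + N) * ‖B‖ := by
      refine (norm_sub_le _ _).trans ?_
      refine add_le_add ((norm_sub_le _ _).trans ?_) ?_
      · rw [norm_mul, Complex.norm_real, Real.norm_eq_abs, abs_of_pos (hW k)]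
      · rw [norm_mul, norm_mul, RCLike.norm_conj, Complex.norm_real, Real.norm_eq_abs,
          abs_of_pos hWN]
    rw [hL] at hn
    rw [← hn] at hR
    have hAb : ‖A‖ * ρ ^ k ≤ W (k + N) * (c ^ 2 * β / 4) := by
      calc ‖A‖ * ρ ^ k ≤ (∑ j ∈ Finset.range N, ‖(starRingEnd ℂ) (q j) *
            ((W (k + j) : ℂ) * cv N q b (k + j))‖) * ρ ^ k := by
            gcongr; exact norm_sum_le _ _
        _ = ∑ j ∈ Finset.range N, ‖(starRingEnd ℂ) (q j) *
            ((W (k + j) : ℂ) * cv N q b (k + j))‖ * ρ ^ k := by rw [Finset.sum_mul]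
        _ ≤ ∑ j ∈ Finset.range N, ‖q j‖ * (W (k + N) / w₀ * (S * (ρ ^ N * β))) := by
            refine Finset.sum_le_sum fun j hj => ?_
            have hj' := Finset.mem_range.1 hj
            have h1 := hstep k j hj'
            have h2 := hcv k j
            have h3 : W (k + j) ≤ W (k + N) / w₀ := by
              rw [le_div_iff₀ hw0]; linarith
            rw [norm_mul, norm_mul, RCLike.norm_conj, Complex.norm_real, Real.norm_eq_abs,
              abs_of_pos (hW (k + j))]
            calc ‖q j‖ * (W (k + j) * ‖cv N q b (k + j)‖) * ρ ^ k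
                = ‖q j‖ * (W (k + j) * (‖cv N q b (k + j)‖ * ρ ^ k)) := by ring
              _ ≤ ‖q j‖ * (W (k + N) / w₀ * (S * (ρ ^ N * β))) := by
                  have h4 := (hW (k + j)).le
                  gcongr
        _ = (∑ j ∈ Finset.range N, ‖q j‖) * (W (k + N) / w₀ * (S * (ρ ^ N * β))) := by
            rw [← Finset.sum_mul]
        _ ≤ S * (W (k + N) / w₀ * (S * (ρ ^ N * β))) := by gcongr
        _ = W (k + N) * β * (S ^ 2 * ρ ^ N) / w₀ := by ring
        _ ≤ W (k + N) * (c ^ 2 * β / 4) := by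
            rw [div_le_iff₀ hw0]
            have h5 : 4 * S ^ 2 * ρ ^ N ≤ w₀ * c ^ 2 := by
              rwa [div_le_iff₀ (by positivity)] at hw2
            have h6 : 0 ≤ W (k + N) * β := by positivity
            nlinarith [mul_le_mul_of_nonneg_left h5 h6]
    have hBb : ‖B‖ * ρ ^ k ≤ c * β / 4 := by
      calc ‖B‖ * ρ ^ k ≤ (∑ i ∈ Finset.range N, ‖q i * b (k + N - i)‖) * ρ ^ k := by
            gcongr; exact norm_sum_le _ _
        _ = ∑ i ∈ Finset.range N, ‖q i * b (k + N - i)‖ * ρ ^ k := by rw [Finset.sum_mul]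
        _ ≤ ∑ i ∈ Finset.range N, ‖q i‖ * (β / ρ) := by
            refine Finset.sum_le_sum fun i hi => ?_
            have hi' := Finset.mem_range.1 hi
            rw [norm_mul, mul_assoc]
            refine mul_le_mul_of_nonneg_left ?_ (norm_nonneg _)
            rw [le_div_iff₀ hρ0]
            have h1 := hβk (k + N - i)
            have h2 : ρ ^ k * ρ ≤ ρ ^ (k + N - i) := by
              rw [← pow_succ]
              exact pow_le_pow_right₀ hρ1 (by omega)
            calc ‖b (k + N - i)‖ * ρ ^ k * ρ = ‖b (k + N - i)‖ * (ρ ^ k * ρ) := by ring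
              _ ≤ ‖b (k + N - i)‖ * ρ ^ (k + N - i) := by gcongr
              _ ≤ β := h1
        _ = (∑ i ∈ Finset.range N, ‖q i‖) * (β / ρ) := by rw [← Finset.sum_mul]
        _ ≤ S * (β / ρ) := by gcongr
        _ = S * β / ρ := by ring
        _ ≤ c * β / 4 := by
            rw [div_le_iff₀ hρ0]
            have h5 : 4 * S ≤ ρ * c := by rwa [div_le_iff₀ hc0] at hρ2
            nlinarith [mul_le_mul_of_nonneg_right h5 hβ0]
    have hgb : W k * ‖g k‖ * ρ ^ k ≤ W (k + N) * M := by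
      have h1 := hM k
      have h2 := hmono k N
      have h4 := (hW k).le
      calc W k * ‖g k‖ * ρ ^ k = W k * (‖g k‖ * ρ ^ k) := by ring
        _ ≤ W (k + N) * M := by gcongr
    have hρk : 0 ≤ ρ ^ k := by positivity
    have hfin : W (k + N) * (c ^ 2 * (‖b k‖ * ρ ^ k)) ≤ W (k + N) * (M + c ^ 2 * β / 2) := by
      calc W (k + N) * (c ^ 2 * (‖b k‖ * ρ ^ k)) = c ^ 2 * W (k + N) * ‖b k‖ * ρ ^ k := by ring
        _ ≤ (W k * ‖g k‖ + ‖A‖ + c * W (k + N) * ‖B‖) * ρ ^ k := by gcongr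
        _ = W k * ‖g k‖ * ρ ^ k + ‖A‖ * ρ ^ k + c * W (k + N) * (‖B‖ * ρ ^ k) := by ring
        _ ≤ W (k + N) * M + W (k + N) * (c ^ 2 * β / 4) + c * W (k + N) * (c * β / 4) := by
            gcongr
        _ = W (k + N) * (M + c ^ 2 * β / 2) := by ring
    exact le_of_mul_le_mul_left hfin hWN
  have hfin2 : β ≤ (M + c ^ 2 * β / 2) / c ^ 2 := by
    refine ciSup_le fun k => ?_
    rw [le_div_iff₀ (by positivity)]
    linarith [main k]
  intro k
  refine (hβk k).trans ?_
  rw [le_div_iff₀ (by positivity)] at hfin2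
  have h7 : β * c ^ 2 ≤ 2 * M := by nlinarith
  rw [div_mul_eq_mul_div, le_div_iff₀ (by positivity)]
  exact h7

/-! ### kRa -/

/-- the decomposition of `ℕ^n` into rays in the direction `a` -/
theorem rays {n : ℕ} (a : Fin n →₀ ℕ) (ha : a ≠ 0) :
    ∃ (B : (Fin n → ℕ) → (Fin n → ℕ)) (K : (Fin n → ℕ) → ℕ),
      (∀ γ i, γ i = B γ i + K γ * a i) ∧ (∀ γ j, (∀ i, j * a i ≤ γ i) ↔ j ≤ K γ) ∧
      (∀ γ k, B (fun i => γ i + k * a i) = B γ ∧ K (fun i => γ i + k * a i) = K γ + k) ∧
      ∀ γ, B (B γ) = B γ ∧ K (B γ) = 0 := by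
  classical
  obtain ⟨i0, hi0⟩ : ∃ i0, a i0 ≠ 0 := by
    by_contra hcon
    push Not at hcon
    exact ha (Finsupp.ext hcon)
  have hex : ∀ γ : Fin n → ℕ, ∃ K : ℕ, ∀ j, (∀ i, j * a i ≤ γ i) ↔ j ≤ K := by
    intro γ
    refine ⟨Nat.findGreatest (fun j => ∀ i, j * a i ≤ γ i) (γ i0), fun j => ⟨fun h => ?_, fun h => ?_⟩⟩
    · refine Nat.le_findGreatest ?_ h
      have h1 := h i0
      have h2 : 1 ≤ a i0 := Nat.one_le_iff_ne_zero.2 hi0
      nlinarith
    · have h0 : (fun j => ∀ i, j * a i ≤ γ i) 0 := by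
        intro i; simp
      have hs := Nat.findGreatest_spec (P := fun j => ∀ i, j * a i ≤ γ i) (Nat.zero_le (γ i0)) h0
      intro i
      exact (Nat.mul_le_mul_right _ h).trans (hs i)
  choose K hK using hex
  have hA : ∀ (γ : Fin n → ℕ) i, γ i = (γ i - K γ * a i) + K γ * a i := by
    intro γ i
    exact (Nat.sub_add_cancel ((hK γ (K γ)).2 le_rfl i)).symm
  have hKadd : ∀ (γ : Fin n → ℕ) (k : ℕ), K (fun i => γ i + k * a i) = K γ + k := by
    intro γ k
    have key : ∀ j, j ≤ K (fun i => γ i + k * a i) ↔ j ≤ K γ + k := by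
      intro j
      rw [← hK]
      constructor
      · intro h
        rcases le_total j k with hjk | hjk
        · omega
        · obtain ⟨j', rfl⟩ := Nat.exists_eq_add_of_le hjk
          have : j' ≤ K γ := by
            rw [← hK]
            intro i
            have := h i
            nlinarith
          omega
      · intro h i
        rcases le_total j k with hjk | hjk
        · exact (Nat.mul_le_mul_right _ hjk).trans (Nat.le_add_left _ _)
        · obtain ⟨j', rfl⟩ := Nat.exists_eq_add_of_le hjk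
          have : j' ≤ K γ := by omega
          have := (hK γ j').2 this i
          nlinarith
    exact le_antisymm ((key _).1 le_rfl) ((key _).2 le_rfl)
  have hBadd : ∀ (γ : Fin n → ℕ) (k : ℕ),
      (fun (γ : Fin n → ℕ) i => γ i - K γ * a i) (fun i => γ i + k * a i) =
      (fun (γ : Fin n → ℕ) i => γ i - K γ * a i) γ := by
    intro γ k
    funext i
    show γ i + k * a i - K (fun i => γ i + k * a i) * a i = γ i - K γ * a i
    rw [hKadd, add_mul]
    omega
  refine ⟨fun γ i => γ i - K γ * a i, K, hA, hK, fun γ k => ⟨hBadd γ k, hKadd γ k⟩, fun γ => ?_⟩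
  have hγ : (fun i => (γ i - K γ * a i) + K γ * a i) = γ := by
    funext i
    exact (hA γ i).symm
  have h1 := hBadd (fun i => γ i - K γ * a i) (K γ)
  have h2 := hKadd (fun i => γ i - K γ * a i) (K γ)
  rw [hγ] at h2
  constructor
  · rw [← h1]
    show _ = (fun (γ : Fin n → ℕ) i => γ i - K γ * a i) γ
    congr 1
  · have h3 : K γ = K (fun i => γ i - K γ * a i) + K γ := h2
    show K (fun i => γ i - K γ * a i) = 0
    omega

/-! ### kFr -/

theorem fac_ray {n : ℕ} (a : Fin n →₀ ℕ) (ha : a ≠ 0) (γ : Fin n → ℕ) (k l : ℕ) (h : l ≤ k) :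
    ((k - l).factorial : ℝ) * (fac (fun i => γ i + l * a i) : ℝ) ≤
      (fac (fun i => γ i + k * a i) : ℝ) := by
  have hex : ∃ i, a i ≠ 0 := by
    by_contra hc
    push Not at hc
    exact ha (Finsupp.ext fun i => by simpa using hc i)
  obtain ⟨i0, hi0⟩ := hex
  have h1 : (k - l).factorial ≤ ∏ i, ((k - l) * a i).factorial := by
    have h2 : (k - l).factorial ≤ ((k - l) * a i0).factorial := by
      apply Nat.factorial_le
      exact Nat.le_mul_of_pos_right _ (Nat.pos_of_ne_zero hi0)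
    refine h2.trans (Nat.le_of_dvd (Finset.prod_pos fun i _ => Nat.factorial_pos _) ?_)
    exact Finset.dvd_prod_of_mem (fun i => ((k - l) * a i).factorial) (Finset.mem_univ i0)
  have h3 : (∏ i, ((k - l) * a i).factorial) * fac (fun i => γ i + l * a i) ≤
      fac (fun i => γ i + k * a i) := by
    unfold fac
    rw [← Finset.prod_mul_distrib]
    apply Finset.prod_le_prod' 
    intro i _
    have h4 : γ i + k * a i = (k - l) * a i + (γ i + l * a i) := by
      obtain ⟨d, rfl⟩ := Nat.exists_eq_add_of_le h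
      have : l + d - l = d := by omega
      rw [this]; ring
    show ((k - l) * a i).factorial * (γ i + l * a i).factorial ≤ (γ i + k * a i).factorial
    rw [h4]
    exact Nat.le_of_dvd (Nat.factorial_pos _) (Nat.factorial_mul_factorial_dvd_factorial_add _ _)
  have h5 : (k - l).factorial * fac (fun i => γ i + l * a i) ≤ fac (fun i => γ i + k * a i) :=
    (Nat.mul_le_mul_right _ h1).trans h3
  exact_mod_cast h5

theorem fac_step {n : ℕ} (a : Fin n →₀ ℕ) (ha : ∀ i, 0 < a i) (γ : Fin n → ℕ) (k : ℕ)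
    (i : Fin n) :
    ((γ i : ℝ) + 1) * (fac (fun i => γ i + k * a i) : ℝ) ≤
      (fac (fun i => γ i + (k + 1) * a i) : ℝ) := by
  have h5 : (γ i + 1) * fac (fun i => γ i + k * a i) ≤ fac (fun i => γ i + (k + 1) * a i) := by
    unfold fac
    rw [← Finset.mul_prod_erase Finset.univ (fun i => (γ i + k * a i).factorial) (Finset.mem_univ i),
      ← Finset.mul_prod_erase Finset.univ (fun i => (γ i + (k + 1) * a i).factorial) (Finset.mem_univ i),
      ← mul_assoc]
    apply Nat.mul_le_mul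
    · have h1 : (γ i + k * a i + 1).factorial ≤ (γ i + (k + 1) * a i).factorial := by
        apply Nat.factorial_le
        have := ha i
        nlinarith
      refine le_trans ?_ h1
      rw [Nat.factorial_succ]
      apply Nat.mul_le_mul_right
      exact Nat.succ_le_succ (Nat.le_add_right _ _)
    · apply Finset.prod_le_prod'
      intro j _
      apply Nat.factorial_le
      nlinarith [Nat.zero_le (a j)]
  exact_mod_cast h5

/-! ### kSu -/

/-- the coefficients of `α! (T_P f)_α` if `P` is a polynomial in one monomial -/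
theorem sum_mono {n : ℕ} (a : Fin n →₀ ℕ) (ha : a ≠ 0) (N : ℕ) (q : ℕ → ℂ)
    (P : MvPolynomial (Fin n) ℂ)
    (hP : P = ∑ j ∈ Finset.range (N + 1), MvPolynomial.monomial (j • a) (q j))
    (F : (Fin n → ℕ) → ℂ) (β : Fin n → ℕ) :
    ∑ m ∈ P.support, (starRingEnd ℂ) (P.coeff m) * F (fun i => β i + m i) =
      ∑ j ∈ Finset.range (N + 1), (starRingEnd ℂ) (q j) * F (fun i => β i + j * a i) := by
  classical
  have hinj : Function.Injective (fun j : ℕ => j • a) := by
    intro j k hjk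
    obtain ⟨i, hi⟩ : ∃ i, a i ≠ 0 := by
      by_contra hcon
      push Not at hcon
      exact ha (Finsupp.ext hcon)
    have h1 : (j • a) i = (k • a) i := by
      have h2 : j • a = k • a := hjk
      rw [h2]
    rw [Finsupp.smul_apply, Finsupp.smul_apply, smul_eq_mul, smul_eq_mul] at h1
    exact Nat.eq_of_mul_eq_mul_right (Nat.pos_of_ne_zero hi) h1
  have hcoeff : ∀ m, P.coeff m = ∑ j ∈ Finset.range (N + 1), if j • a = m then q j else 0 := by
    intro m
    rw [hP, MvPolynomial.coeff_sum]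
    apply Finset.sum_congr rfl
    intro j _
    rw [MvPolynomial.coeff_monomial]
  have hcoeffj : ∀ j ∈ Finset.range (N + 1), P.coeff (j • a) = q j := by
    intro j hj
    rw [hcoeff, Finset.sum_eq_single j]
    · rw [if_pos rfl]
    · intro k _ hkj
      rw [if_neg]
      intro h
      exact hkj (hinj h)
    · intro h
      exact absurd hj h
  have hsub : P.support ⊆ (Finset.range (N + 1)).image (fun j : ℕ => j • a) := by
    intro m hm
    rw [MvPolynomial.mem_support_iff, hcoeff] at hm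
    obtain ⟨j, hj, hne⟩ := Finset.exists_ne_zero_of_sum_ne_zero hm
    rw [Finset.mem_image]
    refine ⟨j, hj, ?_⟩
    by_contra hcon
    exact hne (if_neg hcon)
  rw [Finset.sum_subset hsub]
  · rw [Finset.sum_image (fun x _ y _ h => hinj h)]
    apply Finset.sum_congr rfl
    intro j hj
    rw [hcoeffj j hj]
    congr 2
  · intro m _ hm
    rw [MvPolynomial.notMem_support_iff] at hm
    rw [hm, map_zero, zero_mul]


/-- the coefficients on a ray -/
theorem mulc_ray {n : ℕ} (a : Fin n →₀ ℕ) (ha : a ≠ 0) (N : ℕ) (q : ℕ → ℂ)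
    (P : MvPolynomial (Fin n) ℂ)
    (hP : P = ∑ j ∈ Finset.range (N + 1), MvPolynomial.monomial (j • a) (q j))
    (B : (Fin n → ℕ) → (Fin n → ℕ)) (K : (Fin n → ℕ) → ℕ)
    (h1 : ∀ γ i, γ i = B γ i + K γ * a i) (h2 : ∀ γ j, (∀ i, j * a i ≤ γ i) ↔ j ≤ K γ)
    (h3 : ∀ γ k, B (fun i => γ i + k * a i) = B γ ∧ K (fun i => γ i + k * a i) = K γ + k)
    (b : (Fin n → ℕ) → ℕ → ℂ) (γ : Fin n → ℕ) :
    mulc P (fun α => b (B α) (K α)) γ = cv N q (b (B γ)) (K γ) := by
  rw [mulc_mono a ha N q P hP]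
  unfold cv
  apply Finset.sum_congr rfl
  intro j _
  by_cases hj : j ≤ K γ
  · have hj2 : ∀ i, j * a i ≤ γ i := (h2 γ j).mpr hj
    rw [if_pos hj2, if_pos hj]
    have h4 := h3 (fun i => γ i - j * a i) j
    have h5 : (fun i => (fun i => γ i - j * a i) i + j * a i) = γ := by
      funext i
      exact Nat.sub_add_cancel (hj2 i)
    rw [h5] at h4
    rw [h4.1, h4.2, Nat.add_sub_cancel]
  · have hj2 : ¬ ∀ i, j * a i ≤ γ i := fun h => hj ((h2 γ j).mp h)
    rw [if_neg hj2, if_neg hj]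

/-! ### lRs -/

noncomputable def lRs_rsG (N : ℕ) (q R : ℕ → ℂ) (k : ℕ) : ℂ :=
  if h : k < N then 0 else
    (q N)⁻¹ * (R (k - N) - ∑ j : Fin N, q j * lRs_rsG N q R (k - N + j))
termination_by k
decreasing_by
  have := j.2
  omega

theorem rec_solve0 (N : ℕ) (q : ℕ → ℂ) (hq : q N ≠ 0) (R : ℕ → ℂ) :
    ∃ G : ℕ → ℂ, (∀ j, j < N → G j = 0) ∧
      ∀ k, ∑ j ∈ Finset.range (N + 1), q j * G (k + j) = R k := by
  refine ⟨lRs_rsG N q R, fun j hj => ?_, fun k => ?_⟩
  · rw [lRs_rsG, dif_pos hj]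
  · rw [Finset.sum_range_succ]
    have h : lRs_rsG N q R (k + N) = (q N)⁻¹ * (R k - ∑ j : Fin N, q j * lRs_rsG N q R (k + j)) := by
      rw [lRs_rsG, dif_neg (by omega)]
      simp only [Nat.add_sub_cancel]
    rw [h, Finset.sum_range (fun j => q j * lRs_rsG N q R (k + j))]
    field_simp
    ring

/-! ### lQb -/

theorem quot_bd (N : ℕ) (q : ℕ → ℂ) (hq : q N ≠ 0) (W : ℕ → ℝ) (hW : ∀ k, 0 < W k)
    (hW2 : ∀ k l, l ≤ k → ((k - l).factorial : ℝ) * W l ≤ W k) (σ : ℝ) (hσ : 0 < σ) :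
    ∃ C : ℝ, 0 ≤ C ∧ ∀ g G : ℕ → ℂ, (∀ j, j < N → G j = 0) →
      (∀ k, ∑ j ∈ Finset.range (N + 1), q j * G (k + j) = (W k : ℂ) * g k) →
      ∀ M : ℝ, (∀ k, ‖g k‖ * σ ^ k ≤ M) → ∀ k, ‖G k / (W k : ℂ)‖ * σ ^ k ≤ C * M := by
  obtain ⟨C, B, hC, hB, hrec⟩ := rec_growth N q hq
  refine ⟨C * Real.exp (B * σ), mul_nonneg hC (Real.exp_pos _).le, fun g G hG0 hG M hM k => ?_⟩
  have hM0 : 0 ≤ M := le_trans (by positivity) (hM 0)
  have hB0 : 0 < B := lt_of_lt_of_le one_pos hB
  have h1 := hrec G (fun k => (W k : ℂ) * g k) hG k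
  have h2 : ∑ j ∈ Finset.range N, ‖G j‖ = 0 := by
    refine Finset.sum_eq_zero fun j hj => ?_
    rw [hG0 j (Finset.mem_range.mp hj), norm_zero]
  rw [h2, mul_zero, zero_add] at h1
  have hWk := hW k
  have h3 : ‖G k / (W k : ℂ)‖ * σ ^ k = ‖G k‖ * σ ^ k / W k := by
    rw [norm_div, Complex.norm_real, Real.norm_of_nonneg hWk.le]
    ring
  rw [h3]
  have hterm : ∀ l ∈ Finset.range (k + 1), B ^ (k - l) * ‖(W l : ℂ) * g l‖ * (σ ^ k / W k) ≤
      (B * σ) ^ (k - l) / ((k - l).factorial : ℝ) * M := by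
    intro l hl
    have hlk : l ≤ k := Nat.lt_succ_iff.mp (Finset.mem_range.mp hl)
    have hf : (0 : ℝ) < ((k - l).factorial : ℝ) := by exact_mod_cast Nat.factorial_pos _
    have h4 : W l / W k ≤ 1 / ((k - l).factorial : ℝ) := by
      rw [div_le_div_iff₀ hWk hf]
      have := hW2 k l hlk
      linarith
    have h5 : σ ^ k = σ ^ (k - l) * σ ^ l := by
      rw [← pow_add]
      congr 1
      omega
    rw [norm_mul, Complex.norm_real, Real.norm_of_nonneg (hW l).le, h5]
    calc B ^ (k - l) * (W l * ‖g l‖) * (σ ^ (k - l) * σ ^ l / W k)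
        = (B * σ) ^ (k - l) * (W l / W k) * (‖g l‖ * σ ^ l) := by
          rw [mul_pow]; ring
      _ ≤ (B * σ) ^ (k - l) * (1 / ((k - l).factorial : ℝ)) * M := by
          apply mul_le_mul
          · exact mul_le_mul_of_nonneg_left h4 (by positivity)
          · exact hM l
          · positivity
          · positivity
      _ = (B * σ) ^ (k - l) / ((k - l).factorial : ℝ) * M := by ring
  have hsum : ∑ l ∈ Finset.range (k + 1), (B * σ) ^ (k - l) / ((k - l).factorial : ℝ) ≤
      Real.exp (B * σ) := by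
    have h6 := Finset.sum_range_reflect (fun j : ℕ => (B * σ) ^ j / (j.factorial : ℝ)) (k + 1)
    simp only [Nat.add_sub_cancel] at h6
    rw [h6]
    exact Real.sum_le_exp_of_nonneg (by positivity) _
  calc ‖G k‖ * σ ^ k / W k = ‖G k‖ * (σ ^ k / W k) := by ring
    _ ≤ (C * ∑ l ∈ Finset.range (k + 1), B ^ (k - l) * ‖(W l : ℂ) * g l‖) * (σ ^ k / W k) :=
        mul_le_mul_of_nonneg_right h1 (by positivity)
    _ = C * ∑ l ∈ Finset.range (k + 1), B ^ (k - l) * ‖(W l : ℂ) * g l‖ * (σ ^ k / W k) := by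
        rw [mul_assoc, Finset.sum_mul]
    _ ≤ C * ∑ l ∈ Finset.range (k + 1), (B * σ) ^ (k - l) / ((k - l).factorial : ℝ) * M :=
        mul_le_mul_of_nonneg_left (Finset.sum_le_sum hterm) hC
    _ = C * (∑ l ∈ Finset.range (k + 1), (B * σ) ^ (k - l) / ((k - l).factorial : ℝ)) * M := by
        rw [← Finset.sum_mul]; ring
    _ ≤ C * Real.exp (B * σ) * M := by
        apply mul_le_mul_of_nonneg_right _ hM0
        exact mul_le_mul_of_nonneg_left hsum hC

/-! ### lDb -/

theorem div_bd (N : ℕ) (q : ℕ → ℂ) (hq : q N ≠ 0) :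
    ∃ ρ₀ : ℝ, 1 ≤ ρ₀ ∧ ∀ ρ : ℝ, ρ₀ ≤ ρ → ∃ C : ℝ, 0 ≤ C ∧ ∀ d b r : ℕ → ℂ, Dec b →
      (∀ k, N ≤ k → r k = 0) → (∀ k, d k = cv N q b k + r k) →
      ∀ M : ℝ, (∀ k, ‖d k‖ * ρ ^ k ≤ M) →
      (∀ k, ‖b k‖ * ρ ^ k ≤ C * M) ∧ ∀ k, ‖r k‖ ≤ C * M := by
  obtain ⟨c, hc⟩ : ∃ c : ℝ, c = ‖q N‖ := ⟨_, rfl⟩
  obtain ⟨S, hS⟩ : ∃ S : ℝ, S = ∑ i ∈ Finset.range (N + 1), ‖q i‖ := ⟨_, rfl⟩
  have hc0 : 0 < c := by
    rw [hc]
    exact norm_pos_iff.mpr hq
  have hS0 : 0 ≤ S := by
    rw [hS]
    exact Finset.sum_nonneg fun i _ => norm_nonneg _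
  refine ⟨max 1 (2 * S / c), le_max_left _ _, fun ρ hρ => ?_⟩
  have hρ1 : 1 ≤ ρ := (le_max_left _ _).trans hρ
  have hρ2 : 2 * S / c ≤ ρ := (le_max_right _ _).trans hρ
  have hρ0 : 0 < ρ := by linarith
  refine ⟨1 + (2 + 2 * S) / c, by positivity, ?_⟩
  intro d b r hb hr hd M hM
  have hM0 : 0 ≤ M := by
    have h := hM 0
    rw [pow_zero, mul_one] at h
    exact (norm_nonneg _).trans h
  have hdk : ∀ k, ‖d k‖ ≤ M := by
    intro k
    refine le_trans ?_ (hM k)
    exact le_mul_of_one_le_right (norm_nonneg _) (one_le_pow₀ hρ1)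
  obtain ⟨M0, hM0'⟩ := hb ρ hρ0
  have hbdd : BddAbove (Set.range fun k => ‖b k‖ * ρ ^ k) := ⟨M0, by
    rintro _ ⟨k, rfl⟩
    exact hM0' k⟩
  obtain ⟨β, hβ⟩ : ∃ β : ℝ, β = ⨆ k, ‖b k‖ * ρ ^ k := ⟨_, rfl⟩
  have hle : ∀ k, ‖b k‖ * ρ ^ k ≤ β := by
    intro k
    rw [hβ]
    exact le_ciSup hbdd k
  have hβ0 : 0 ≤ β := le_trans (by positivity) (hle 0)
  have hSc : S * (β / ρ) ≤ c * β / 2 := by
    have h1 : 2 * S ≤ ρ * c := by
      rwa [div_le_iff₀ hc0] at hρ2
    have h2 : S * (β / ρ) = S * β / ρ := by ring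
    rw [h2, div_le_iff₀ hρ0]
    have h3 := mul_le_mul_of_nonneg_right h1 hβ0
    nlinarith
  have hkey : ∀ k, c * (‖b k‖ * ρ ^ k) ≤ M + c * β / 2 := by
    intro k
    have h1 : d (k + N) = (∑ i ∈ Finset.range N, q i * b (k + N - i)) + q N * b k := by
      rw [hd (k + N), hr (k + N) (Nat.le_add_left N k), add_zero]
      unfold cv
      rw [Finset.sum_range_succ, if_pos (Nat.le_add_left N k), Nat.add_sub_cancel]
      congr 1
      refine Finset.sum_congr rfl fun i hi => ?_
      rw [Finset.mem_range] at hi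
      rw [if_pos (by omega)]
    have h2 : q N * b k = d (k + N) - ∑ i ∈ Finset.range N, q i * b (k + N - i) := by
      rw [h1]
      ring
    have hρk : 0 ≤ ρ ^ k := by positivity
    have h3 : c * ‖b k‖ ≤ ‖d (k + N)‖ + ∑ i ∈ Finset.range N, ‖q i‖ * ‖b (k + N - i)‖ := by
      rw [hc, ← norm_mul, h2]
      refine (norm_sub_le _ _).trans ?_
      apply add_le_add le_rfl
      refine (norm_sum_le _ _).trans (le_of_eq ?_)
      exact Finset.sum_congr rfl fun i _ => norm_mul _ _
    have h4 : ‖d (k + N)‖ * ρ ^ k ≤ M := by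
      refine le_trans ?_ (hM (k + N))
      exact mul_le_mul_of_nonneg_left (pow_le_pow_right₀ hρ1 (Nat.le_add_right k N))
        (norm_nonneg _)
    have h5 : (∑ i ∈ Finset.range N, ‖q i‖ * ‖b (k + N - i)‖) * ρ ^ k ≤ S * (β / ρ) := by
      calc (∑ i ∈ Finset.range N, ‖q i‖ * ‖b (k + N - i)‖) * ρ ^ k =
          ∑ i ∈ Finset.range N, ‖q i‖ * (‖b (k + N - i)‖ * ρ ^ k) := by
            rw [Finset.sum_mul]
            exact Finset.sum_congr rfl fun i _ => by ring
        _ ≤ ∑ i ∈ Finset.range N, ‖q i‖ * (β / ρ) := by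
            refine Finset.sum_le_sum fun i hi => ?_
            rw [Finset.mem_range] at hi
            apply mul_le_mul_of_nonneg_left _ (norm_nonneg _)
            rw [le_div_iff₀ hρ0, mul_assoc, ← pow_succ]
            refine le_trans ?_ (hle (k + N - i))
            exact mul_le_mul_of_nonneg_left (pow_le_pow_right₀ hρ1 (by omega)) (norm_nonneg _)
        _ = (∑ i ∈ Finset.range N, ‖q i‖) * (β / ρ) := by rw [Finset.sum_mul]
        _ ≤ S * (β / ρ) := by
            apply mul_le_mul_of_nonneg_right _ (by positivity)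
            rw [hS, Finset.sum_range_succ]
            exact le_add_of_nonneg_right (norm_nonneg _)
    have h6 := mul_le_mul_of_nonneg_right h3 hρk
    rw [add_mul] at h6
    have h7 : c * (‖b k‖ * ρ ^ k) = c * ‖b k‖ * ρ ^ k := by ring
    rw [h7]
    linarith
  have hβM : β ≤ 2 * M / c := by
    have h1 : β ≤ (M + c * β / 2) / c := by
      conv_lhs => rw [hβ]
      apply ciSup_le
      intro k
      rw [le_div_iff₀ hc0, mul_comm]
      exact hkey k
    rw [le_div_iff₀ hc0] at h1 ⊢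
    linarith
  have hbC : ∀ k, ‖b k‖ * ρ ^ k ≤ 2 * M / c := fun k => (hle k).trans hβM
  have hbn : ∀ k, ‖b k‖ ≤ 2 * M / c := by
    intro k
    refine le_trans ?_ (hbC k)
    exact le_mul_of_one_le_right (norm_nonneg _) (one_le_pow₀ hρ1)
  have hMc : 0 ≤ M / c := by positivity
  constructor
  · intro k
    refine (hbC k).trans ?_
    have h1 : (1 + (2 + 2 * S) / c) * M = M + 2 * M / c + 2 * S * (M / c) := by
      field_simp
      ring
    rw [h1]
    have h2 : 0 ≤ 2 * S * (M / c) := by positivity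
    linarith
  · intro k
    have h1 : r k = d k - cv N q b k := by
      rw [hd k]
      ring
    have h2 : ‖cv N q b k‖ ≤ S * (2 * M / c) := by
      unfold cv
      refine (norm_sum_le _ _).trans ?_
      rw [hS, Finset.sum_mul]
      refine Finset.sum_le_sum fun i _ => ?_
      split_ifs
      · rw [norm_mul]
        exact mul_le_mul_of_nonneg_left (hbn _) (norm_nonneg _)
      · rw [norm_zero]
        positivity
    have h3 : (1 + (2 + 2 * S) / c) * M = M + 2 * (M / c) + S * (2 * M / c) := by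
      field_simp
      ring
    rw [h1, h3]
    refine (norm_sub_le _ _).trans ?_
    have := hdk k
    linarith

/-! ### lRb -/

theorem lRb_cv_sum' (N : ℕ) (q : ℕ → ℂ) {m : ℕ} (y : Fin m → ℂ) (b : Fin m → ℕ → ℂ) (k : ℕ) :
    cv N q (fun k => ∑ i, y i * b i k) k = ∑ i, y i * cv N q (b i) k := by
  unfold cv
  simp only [Finset.mul_sum]
  rw [Finset.sum_comm (s := Finset.univ)]
  apply Finset.sum_congr rfl
  intro l _
  split_ifs with h
  · apply Finset.sum_congr rfl
    intro i _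
    ring
  · simp

theorem lRb_cv_add' (N : ℕ) (q : ℕ → ℂ) (u v : ℕ → ℂ) (k : ℕ) :
    cv N q (fun k => u k + v k) k = cv N q u k + cv N q v k := by
  unfold cv
  rw [← Finset.sum_add_distrib]
  apply Finset.sum_congr rfl
  intro l _
  split_ifs <;> ring

theorem lRb_cv_sub' (N : ℕ) (q : ℕ → ℂ) (u v : ℕ → ℂ) (k : ℕ) :
    cv N q (fun k => u k - v k) k = cv N q u k - cv N q v k := by
  unfold cv
  rw [← Finset.sum_sub_distrib]
  apply Finset.sum_congr rfl
  intro l _
  split_ifs <;> ring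

theorem lRb_Dec_sum' {m : ℕ} (y : Fin m → ℂ) (b : Fin m → ℕ → ℂ) (hb : ∀ i, Dec (b i)) :
    Dec (fun k => ∑ i, y i * b i k) := by
  intro ρ hρ
  choose M hM using fun i => hb i ρ hρ
  refine ⟨∑ i, ‖y i‖ * M i, fun k => ?_⟩
  calc ‖∑ i, y i * b i k‖ * ρ ^ k ≤ (∑ i, ‖y i‖ * ‖b i k‖) * ρ ^ k := by
        apply mul_le_mul_of_nonneg_right _ (by positivity)
        refine (norm_sum_le _ _).trans (le_of_eq ?_)
        apply Finset.sum_congr rfl
        intro i _
        rw [norm_mul]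
    _ = ∑ i, ‖y i‖ * (‖b i k‖ * ρ ^ k) := by
        rw [Finset.sum_mul]
        apply Finset.sum_congr rfl
        intro i _
        ring
    _ ≤ _ := Finset.sum_le_sum fun i _ => mul_le_mul_of_nonneg_left (hM i k) (norm_nonneg _)

theorem lRb_Dec_add' {u v : ℕ → ℂ} (hu : Dec u) (hv : Dec v) : Dec (fun k => u k + v k) := by
  intro ρ hρ
  obtain ⟨M1, h1⟩ := hu ρ hρ
  obtain ⟨M2, h2⟩ := hv ρ hρ
  refine ⟨M1 + M2, fun k => ?_⟩
  have h3 := mul_le_mul_of_nonneg_right (norm_add_le (u k) (v k)) (by positivity : 0 ≤ ρ ^ k)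
  have h4 := h1 k
  have h5 := h2 k
  show ‖u k + v k‖ * ρ ^ k ≤ M1 + M2
  linarith

theorem lRb_Dec_sub' {u v : ℕ → ℂ} (hu : Dec u) (hv : Dec v) : Dec (fun k => u k - v k) := by
  intro ρ hρ
  obtain ⟨M1, h1⟩ := hu ρ hρ
  obtain ⟨M2, h2⟩ := hv ρ hρ
  refine ⟨M1 + M2, fun k => ?_⟩
  have h3 := mul_le_mul_of_nonneg_right (norm_sub_le (u k) (v k)) (by positivity : 0 ≤ ρ ^ k)
  have h4 := h1 k
  have h5 := h2 k
  show ‖u k - v k‖ * ρ ^ k ≤ M1 + M2
  linarith

theorem lRb_rec_uniq' (N : ℕ) (q : ℕ → ℂ) (hq : q N ≠ 0) (u : ℕ → ℂ) (h0 : ∀ j, j < N → u j = 0)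
    (h : ∀ k, ∑ j ∈ Finset.range (N + 1), q j * u (k + j) = 0) : ∀ n, u n = 0 := by
  intro n
  induction n using Nat.strong_induction_on with
  | _ n ih =>
    by_cases hn : n < N
    · exact h0 n hn
    · rw [not_lt] at hn
      have h1 := h (n - N)
      rw [Finset.sum_range_succ, Nat.sub_add_cancel hn] at h1
      have h2 : ∑ j ∈ Finset.range N, q j * u (n - N + j) = 0 := by
        apply Finset.sum_eq_zero
        intro j hj
        rw [Finset.mem_range] at hj
        rw [ih (n - N + j) (by omega), mul_zero]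
      rw [h2, zero_add] at h1
      exact (mul_eq_zero.mp h1).resolve_left hq

theorem lRb_rec_comb' (N : ℕ) (q : ℕ → ℂ) (e : Fin N → ℕ → ℂ)
    (he2 : ∀ i k, ∑ j ∈ Finset.range (N + 1), q j * e i (k + j) = 0) (c : Fin N → ℂ) (k : ℕ) :
    ∑ j ∈ Finset.range (N + 1), q j * (∑ i, c i * e i (k + j)) = 0 := by
  simp only [Finset.mul_sum]
  rw [Finset.sum_comm]
  apply Finset.sum_eq_zero
  intro i _
  have h1 := he2 i k
  calc ∑ j ∈ Finset.range (N + 1), q j * (c i * e i (k + j)) =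
        c i * ∑ j ∈ Finset.range (N + 1), q j * e i (k + j) := by
        rw [Finset.mul_sum]
        apply Finset.sum_congr rfl
        intro j _
        ring
    _ = 0 := by rw [h1, mul_zero]

theorem lRb_rec_span' (N : ℕ) (q : ℕ → ℂ) (hq : q N ≠ 0) (e : Fin N → ℕ → ℂ)
    (he : ∀ c : Fin N → ℂ, (∀ k, ∑ i, c i * e i k = 0) → c = 0)
    (he2 : ∀ i k, ∑ j ∈ Finset.range (N + 1), q j * e i (k + j) = 0)
    (H : ℕ → ℂ) (hH : ∀ k, ∑ j ∈ Finset.range (N + 1), q j * H (k + j) = 0) :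
    ∃ x : Fin N → ℂ, ∀ k, H k = ∑ i, x i * e i k := by
  let L : (Fin N → ℂ) →ₗ[ℂ] (Fin N → ℂ) :=
    { toFun := fun x j => ∑ i, x i * e i j
      map_add' := by
        intro x y
        funext j
        simp [add_mul, Finset.sum_add_distrib]
      map_smul' := by
        intro c x
        funext j
        simp [Finset.mul_sum, mul_assoc] }
  have hinj : Function.Injective L := by
    rw [← LinearMap.ker_eq_bot, LinearMap.ker_eq_bot']
    intro c hc
    apply he c
    apply lRb_rec_uniq' N q hq (fun k => ∑ i, c i * e i k)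
    · intro j hj
      exact congrFun hc ⟨j, hj⟩
    · exact lRb_rec_comb' N q e he2 c
  have hsurj := LinearMap.injective_iff_surjective.mp hinj
  obtain ⟨x, hx⟩ := hsurj (fun j => H j)
  refine ⟨x, ?_⟩
  have h1 := lRb_rec_uniq' N q hq (fun k => H k - ∑ i, x i * e i k) ?_ ?_
  · intro k
    exact sub_eq_zero.mp (h1 k)
  · intro j hj
    have h2 : ∑ i, x i * e i j = H j := congrFun hx ⟨j, hj⟩
    show H j - ∑ i, x i * e i j = 0
    rw [h2, sub_self]
  · intro k
    simp only [mul_sub, Finset.sum_sub_distrib]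
    rw [hH, lRb_rec_comb' N q e he2, sub_zero]

theorem ray_bd (N : ℕ) (q : ℕ → ℂ) (hq : q N ≠ 0) (W : ℕ → ℝ) (hW : ∀ k, 0 < W k)
    (hW2 : ∀ k l, l ≤ k → ((k - l).factorial : ℝ) * W l ≤ W k) (ρ : ℝ) (hρ : 0 < ρ) :
    ∃ R C : ℝ, 0 < R ∧ 0 ≤ C ∧ ∀ b g : ℕ → ℂ, Dec b → Dec g →
      (∀ k, ∑ j ∈ Finset.range (N + 1), (starRingEnd ℂ) (q j) *
        ((W (k + j) : ℂ) * cv N q b (k + j)) = (W k : ℂ) * g k) →
      ∀ M : ℝ, (∀ k, ‖g k‖ * R ^ k ≤ M) → ∀ k, ‖b k‖ * ρ ^ k ≤ C * M := by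
  have hWc : ∀ k, (W k : ℂ) ≠ 0 := fun k => by exact_mod_cast (hW k).ne'
  obtain ⟨q', hq'⟩ : ∃ q' : ℕ → ℂ, ∀ j, q' j = (starRingEnd ℂ) (q j) := ⟨_, fun _ => rfl⟩
  have hq'N : q' N ≠ 0 := by
    rw [hq']
    exact (map_ne_zero (starRingEnd ℂ)).mpr hq
  obtain ⟨e, he, he2⟩ := sol_basis N q' hq'N
  -- the quotients
  have hv : ∀ i, Dec (fun k => e i k / (W k : ℂ)) := by
    intro i
    apply dec_quot N q' hq'N W hW hW2 (fun _ => 0)
    · intro σ _
      exact ⟨0, fun k => by simp⟩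
    · intro k
      rw [he2, mul_zero]
  choose b' r' hb' hr' hbr using fun i => div_rem N q hq _ (hv i)
  -- the remainders are independent
  have hind : ∀ y : Fin N → ℂ, (∀ k, ∑ i, y i * r' i k = 0) → y = 0 := by
    intro y hy
    have hcv : ∀ k, (W k : ℂ) * cv N q (fun k => ∑ i, y i * b' i k) k = ∑ i, y i * e i k := by
      intro k
      rw [lRb_cv_sum', Finset.mul_sum]
      have h1 : ∑ i, y i * e i k = ∑ i, ((W k : ℂ) * (y i * cv N q (b' i) k) +
          (W k : ℂ) * (y i * r' i k)) := by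
        apply Finset.sum_congr rfl
        intro i _
        have h2 := hbr i k
        rw [div_eq_iff (hWc k)] at h2
        rw [h2]
        ring
      rw [h1, Finset.sum_add_distrib, ← Finset.mul_sum (f := fun i => y i * r' i k), hy, mul_zero,
        add_zero]
    have hz : ∀ k, cv N q (fun k => ∑ i, y i * b' i k) k = 0 := by
      intro k
      refine block_zero N q hq (fun k => ∑ i, y i * b' i k) W hW (lRb_Dec_sum' y b' hb') ?_ k
      intro k
      have h3 := lRb_rec_comb' N q' e he2 y k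
      refine Eq.trans ?_ h3
      apply Finset.sum_congr rfl
      intro j _
      rw [hq', ← hcv]
      rfl
    apply he y
    intro k
    rw [← hcv, hz, mul_zero]
  -- the left inverse
  let Lr : (Fin N → ℂ) →ₗ[ℂ] (Fin N → ℂ) :=
    { toFun := fun x j => ∑ i, x i * r' i j
      map_add' := by
        intro x y
        funext j
        simp [add_mul, Finset.sum_add_distrib]
      map_smul' := by
        intro c x
        funext j
        simp [Finset.mul_sum, mul_assoc] }
  have hker : LinearMap.ker Lr = ⊥ := by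
    rw [LinearMap.ker_eq_bot']
    intro c hc
    apply hind c
    intro k
    by_cases hk : k < N
    · exact congrFun hc ⟨k, hk⟩
    · apply Finset.sum_eq_zero
      intro i _
      rw [hr' i k (by omega), mul_zero]
  obtain ⟨A, hA0, hA⟩ := LinearMap.exists_antilipschitzWith Lr hker
  have hAb : ∀ y : Fin N → ℂ, ‖y‖ ≤ A * ‖Lr y‖ := fun y =>
    ZeroHomClass.bound_of_antilipschitz Lr hA y
  obtain ⟨ρ₀, hρ₀, hdiv⟩ := div_bd N q hq
  obtain ⟨R, hR⟩ : ∃ R : ℝ, R = max ρ ρ₀ := ⟨_, rfl⟩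
  have hRρ : ρ ≤ R := by rw [hR]; exact le_max_left _ _
  have hRρ₀ : ρ₀ ≤ R := by rw [hR]; exact le_max_right _ _
  have hR0 : 0 < R := lt_of_lt_of_le hρ hRρ
  obtain ⟨C2, hC2, hdivR⟩ := hdiv R hRρ₀
  obtain ⟨C1, hC1, hquot⟩ := quot_bd N q' hq'N W hW hW2 R hR0
  choose Mb hMb using fun i => hb' i R hR0
  have hMb0 : ∀ i, 0 ≤ Mb i := fun i => le_trans (by positivity) (hMb i 0)
  refine ⟨R, C2 * C1 * (1 + A * ∑ i, Mb i), hR0, ?_, ?_⟩
  · have : 0 ≤ ∑ i, Mb i := Finset.sum_nonneg fun i _ => hMb0 i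
    positivity
  intro b g hb hg hrec M hM k
  have hM0 : 0 ≤ M := le_trans (by positivity) (hM 0)
  have hCM : 0 ≤ C2 * (C1 * M) := by positivity
  -- particular solution
  obtain ⟨G0, hG0a, hG0b⟩ := rec_solve0 N q' hq'N (fun k => (W k : ℂ) * g k)
  have hH : ∀ k, ∑ j ∈ Finset.range (N + 1),
      q' j * ((fun k => (W k : ℂ) * cv N q b k - G0 k) (k + j)) = 0 := by
    intro k
    simp only [mul_sub, Finset.sum_sub_distrib]
    rw [hG0b]
    simp only [hq']
    rw [hrec, sub_self]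
  obtain ⟨x, hx⟩ := lRb_rec_span' N q' hq'N e he he2 (fun k => (W k : ℂ) * cv N q b k - G0 k) hH
  have hd0 : Dec (fun k => G0 k / (W k : ℂ)) := dec_quot N q' hq'N W hW hW2 g hg G0 hG0b
  obtain ⟨b0, r0, hb0, hr0, hbr0⟩ := div_rem N q hq _ hd0
  have hd0b := hquot g G0 hG0a hG0b M hM
  obtain ⟨hb0b, hr0b⟩ := hdivR _ b0 r0 hb0 hr0 hbr0 (C1 * M) hd0b
  -- comparison
  have hcomp : ∀ k, (0 : ℂ) = cv N q (fun k => (b0 k + ∑ i, x i * b' i k) - b k) k +
      (r0 k + ∑ i, x i * r' i k) := by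
    intro k
    rw [lRb_cv_sub', lRb_cv_add', lRb_cv_sum']
    have h1 : (W k : ℂ) * cv N q b k - G0 k = ∑ i, x i * e i k := hx k
    have h2 : G0 k = (cv N q b0 k + r0 k) * (W k : ℂ) := (div_eq_iff (hWc k)).mp (hbr0 k)
    have h3 : ∑ i, x i * e i k = (∑ i, x i * cv N q (b' i) k + ∑ i, x i * r' i k) * (W k : ℂ) := by
      rw [← Finset.sum_add_distrib, Finset.sum_mul]
      apply Finset.sum_congr rfl
      intro i _
      have h4 := hbr i k
      rw [div_eq_iff (hWc k)] at h4
      rw [h4]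
      ring
    rw [h2, h3] at h1
    apply mul_left_cancel₀ (hWc k)
    linear_combination h1
  have hDec : Dec (fun k => (b0 k + ∑ i, x i * b' i k) - b k) :=
    lRb_Dec_sub' (lRb_Dec_add' hb0 (lRb_Dec_sum' x b' hb')) hb
  obtain ⟨hz1, hz2⟩ := hdivR (fun _ => 0) (fun k => (b0 k + ∑ i, x i * b' i k) - b k)
    (fun k => r0 k + ∑ i, x i * r' i k) hDec
    (fun k hk => by
      have h5 : ∑ i, x i * r' i k = 0 := by
        apply Finset.sum_eq_zero
        intro i _
        rw [hr' i k hk, mul_zero]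
      rw [hr0 k hk, h5, add_zero]) hcomp 0 (fun k => by simp)
  have hbe : ∀ k, b k = b0 k + ∑ i, x i * b' i k := by
    intro k
    have h6 := hz1 k
    rw [mul_zero] at h6
    have h7 : ‖(b0 k + ∑ i, x i * b' i k) - b k‖ ≤ 0 := by
      by_contra hcon
      rw [not_le] at hcon
      have : 0 < ‖(b0 k + ∑ i, x i * b' i k) - b k‖ * R ^ k := by positivity
      linarith
    exact (sub_eq_zero.mp (norm_le_zero_iff.mp h7)).symm
  have hre : ∀ k, ∑ i, x i * r' i k = -r0 k := by
    intro k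
    have h6 := hz2 k
    rw [mul_zero] at h6
    have h7 := norm_le_zero_iff.mp h6
    linear_combination h7
  -- the bound of x
  have hxn : ‖x‖ ≤ A * (C2 * (C1 * M)) := by
    refine (hAb x).trans (mul_le_mul_of_nonneg_left ?_ A.2)
    rw [pi_norm_le_iff_of_nonneg hCM]
    intro j
    show ‖∑ i, x i * r' i j‖ ≤ _
    rw [hre, norm_neg]
    exact hr0b j
  -- the final estimate
  have hfin : ‖b k‖ * R ^ k ≤ C2 * C1 * (1 + A * ∑ i, Mb i) * M := by
    rw [hbe k]
    have h8 : ‖b0 k + ∑ i, x i * b' i k‖ ≤ ‖b0 k‖ + ∑ i, ‖x‖ * ‖b' i k‖ := by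
      refine (norm_add_le _ _).trans (add_le_add le_rfl ((norm_sum_le _ _).trans ?_))
      apply Finset.sum_le_sum
      intro i _
      rw [norm_mul]
      exact mul_le_mul_of_nonneg_right (norm_le_pi_norm x i) (norm_nonneg _)
    calc ‖b0 k + ∑ i, x i * b' i k‖ * R ^ k ≤ (‖b0 k‖ + ∑ i, ‖x‖ * ‖b' i k‖) * R ^ k :=
          mul_le_mul_of_nonneg_right h8 (by positivity)
      _ = ‖b0 k‖ * R ^ k + ∑ i, ‖x‖ * (‖b' i k‖ * R ^ k) := by
          rw [add_mul, Finset.sum_mul]
          congr 1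
          apply Finset.sum_congr rfl
          intro i _
          ring
      _ ≤ C2 * (C1 * M) + ∑ i, (A * (C2 * (C1 * M))) * Mb i := by
          apply add_le_add (hb0b k)
          apply Finset.sum_le_sum
          intro i _
          exact mul_le_mul hxn (hMb i k) (by positivity) (mul_nonneg A.2 hCM)
      _ = C2 * C1 * (1 + A * ∑ i, Mb i) * M := by
          rw [← Finset.mul_sum]
          ring
  refine le_trans ?_ hfin
  exact mul_le_mul_of_nonneg_left (pow_le_pow_left₀ hρ.le hRρ k) (norm_nonneg _)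

/-! ### lFs -/

theorem fac_step2 {n : ℕ} (a : Fin n →₀ ℕ) (γ : Fin n → ℕ) (k : ℕ) (i : Fin n) (hi : 0 < a i) :
    ((γ i : ℝ) + 1) * (fac (fun i => γ i + k * a i) : ℝ) ≤
      (fac (fun i => γ i + (k + 1) * a i) : ℝ) := by
  have key : (γ i + 1) * fac (fun i => γ i + k * a i) ≤ fac (fun i => γ i + (k + 1) * a i) := by
    unfold fac
    rw [← Finset.mul_prod_erase Finset.univ (fun i => (γ i + k * a i).factorial)
      (Finset.mem_univ i), ← Finset.mul_prod_erase Finset.univ
      (fun i => (γ i + (k + 1) * a i).factorial) (Finset.mem_univ i), ← mul_assoc]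
    apply Nat.mul_le_mul
    · have h1 : γ i + k * a i + 1 ≤ γ i + (k + 1) * a i := by nlinarith
      calc (γ i + 1) * (γ i + k * a i).factorial
          ≤ (γ i + k * a i + 1) * (γ i + k * a i).factorial :=
            Nat.mul_le_mul_right _ (by omega)
        _ = (γ i + k * a i + 1).factorial := (Nat.factorial_succ _).symm
        _ ≤ _ := Nat.factorial_le h1
    · apply Finset.prod_le_prod'
      intro j _
      apply Nat.factorial_le
      nlinarith [Nat.zero_le (a j)]
  exact_mod_cast key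

theorem fac_split {n : ℕ} (a : Fin n →₀ ℕ) (γ : Fin n → ℕ) (k : ℕ) :
    fac (fun i => γ i + k * a i) = fac (fun i => if a i = 0 then γ i else 0) *
      fac (fun i => (if a i = 0 then 0 else γ i) + k * a i) := by
  unfold fac
  rw [← Finset.prod_mul_distrib]
  apply Finset.prod_congr rfl
  intro i _
  by_cases h : a i = 0
  · simp [h]
  · simp [h]

/-! ### lMs -/

theorem mono_surj2 {n : ℕ} (a : Fin n →₀ ℕ) (ha : a ≠ 0) (N : ℕ) (q : ℕ → ℂ)
    (hq : q N ≠ 0) (P : MvPolynomial (Fin n) ℂ)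
    (hP : P = ∑ j ∈ Finset.range (N + 1), MvPolynomial.monomial (j • a) (q j))
    (g : (Fin n → ℕ) → ℂ) (hg : DecN g) :
    ∃ c : (Fin n → ℕ) → ℂ, DecN c ∧ ∀ β : Fin n → ℕ,
      ∑ m ∈ P.support, (starRingEnd ℂ) (P.coeff m) *
        ((fac (fun i => β i + m i) : ℂ) * mulc P c (fun i => β i + m i)) =
      (fac β : ℂ) * g β := by
  classical
  obtain ⟨B, K, hB1, hB2, hB3, hB4⟩ := rays a ha
  have hs1 : 1 ≤ ∑ i, a i := by
    by_contra h
    have h0 : ∑ i, a i = 0 := by omega
    apply ha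
    ext i
    exact Finset.sum_eq_zero_iff.1 h0 i (Finset.mem_univ i)
  have hfac : ∀ γ : Fin n → ℕ, 0 < fac γ := fun γ => Finset.prod_pos fun i _ => Nat.factorial_pos _
  have hpow : ∀ (S : ℝ) (γ0 : Fin n → ℕ) (k : ℕ), S ^ (∑ i, (γ0 i + k * a i)) =
      S ^ (∑ i, γ0 i) * (S ^ (∑ i, a i)) ^ k := by
    intro S γ0 k
    rw [Finset.sum_add_distrib, ← Finset.mul_sum, pow_add, mul_comm k, pow_mul]
  have hSle : ∀ S : ℝ, 1 ≤ S → S ≤ S ^ (∑ i, a i) := fun S hS => le_self_pow₀ hS (by omega)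
  have hgb : ∀ (S σ R M : ℝ), 1 ≤ σ → σ ≤ S → 0 ≤ R → R ≤ S ^ (∑ i, a i) →
      (∀ α, ‖g α‖ * S ^ (∑ i, α i) ≤ M) → ∀ (γ0 : Fin n → ℕ) (k : ℕ),
      ‖g (fun i => γ0 i + k * a i)‖ * R ^ k ≤ M / σ ^ (∑ i, γ0 i) := by
    intro S σ R M h1 h2 h3 h4 h5 γ0 k
    have hσ0 : 0 < σ := by linarith
    rw [le_div_iff₀ (by positivity)]
    refine le_trans ?_ (h5 (fun i => γ0 i + k * a i))
    rw [hpow S γ0 k, mul_assoc, mul_comm (R ^ k)]
    have hS0 : 0 < S := by linarith
    gcongr
  have hray : ∀ γ0 : Fin n → ℕ, Dec (fun k => g (fun i => γ0 i + k * a i)) := by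
    intro γ0 ρ hρ
    obtain ⟨M, hM⟩ := hg (max ρ 1) (lt_of_lt_of_le hρ (le_max_left _ _))
    exact ⟨_, hgb (max ρ 1) 1 ρ M le_rfl (le_max_right _ _) hρ.le
      ((le_max_left _ _).trans (hSle _ (le_max_right _ _))) hM γ0⟩
  have hex := fun γ0 : Fin n → ℕ => ray_surj N q hq
    (fun k => ((fac (fun i => γ0 i + k * a i) : ℕ) : ℝ)) (fun k => by exact_mod_cast hfac _)
    (fun k l h => fac_ray a ha γ0 k l h) (fun k => g (fun i => γ0 i + k * a i)) (hray γ0)
  choose b hbDec hbeq using hex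
  refine ⟨fun α => b (B α) (K α), ?_, ?_⟩
  · intro ρ hρ
    obtain ⟨ρ₀, C, hρ₀, hC, hap⟩ := apriori N q hq
    set σ := max ρ ρ₀ with hσ
    have hσ1 : 1 ≤ σ := hρ₀.trans (le_max_right _ _)
    have hσ0 : 0 < σ := by linarith
    set τ := σ ^ (∑ i, a i) with hτ
    have hτρ : ρ₀ ≤ τ := (le_max_right _ _).trans (hSle σ hσ1)
    have hτ0 : 0 < τ := by positivity
    obtain ⟨w₀, hw₀, hapw⟩ := hap τ hτρ
    obtain ⟨M1, hM1⟩ := hg σ hσ0
    have hbd := fun t : Fin n → ℕ => ray_bd N q hq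
      (fun k => ((fac (fun i => t i + k * a i) : ℕ) : ℝ)) (fun k => by exact_mod_cast hfac _)
      (fun k l h => fac_ray a ha t k l h) τ hτ0
    choose R D hR hD hRD using hbd
    have hM' : ∀ t, ∃ M : ℝ, ∀ α, ‖g α‖ * (max σ (R t)) ^ (∑ i, α i) ≤ M :=
      fun t => hg _ (lt_of_lt_of_le hσ0 (le_max_left _ _))
    choose M' hM' using hM'
    have hM'0 : ∀ t, 0 ≤ M' t := fun t => le_trans
      (mul_nonneg (norm_nonneg _) (pow_nonneg (hσ0.le.trans (le_max_left _ _)) _)) (hM' t 0)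
    have hM10 : 0 ≤ M1 := le_trans (by positivity) (hM1 0)
    set T : Finset (Fin n → ℕ) := Fintype.piFinset (fun _ => Finset.range ⌈w₀⌉₊) with hT
    have hTn : 0 ≤ ∑ t ∈ T, D t * M' t :=
      Finset.sum_nonneg fun t _ => mul_nonneg (hD t) (hM'0 t)
    have hCM : 0 ≤ C * M1 := mul_nonneg hC hM10
    have key : ∀ γ0 k, ‖b γ0 k‖ * τ ^ k * σ ^ (∑ i, γ0 i) ≤ C * M1 + ∑ t ∈ T, D t * M' t := by
      intro γ0 k
      have hσp : 0 < σ ^ (∑ i, γ0 i) := by positivity
      by_cases hcase : ∃ i, 0 < a i ∧ w₀ ≤ (γ0 i : ℝ) + 1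
      · obtain ⟨i, hi, hwi⟩ := hcase
        have hstep : ∀ k, w₀ * (fun k => ((fac (fun i => γ0 i + k * a i) : ℕ) : ℝ)) k ≤
            (fun k => ((fac (fun i => γ0 i + k * a i) : ℕ) : ℝ)) (k + 1) := by
          intro k
          refine le_trans ?_ (fac_step2 a γ0 k i hi)
          exact mul_le_mul_of_nonneg_right hwi (Nat.cast_nonneg _)
        have h1 := hapw (fun k => ((fac (fun i => γ0 i + k * a i) : ℕ) : ℝ))
          (fun k => by exact_mod_cast hfac _) hstep (b γ0)
          (fun k => g (fun i => γ0 i + k * a i)) (hbDec γ0) (hbeq γ0) (M1 / σ ^ (∑ i, γ0 i))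
          (hgb σ σ τ M1 hσ1 le_rfl hτ0.le le_rfl hM1 γ0) k
        rw [mul_div_assoc', le_div_iff₀ hσp] at h1
        linarith
      · have hcase' : ∀ i, 0 < a i → (γ0 i : ℝ) + 1 < w₀ := by
          intro i hi
          by_contra h
          exact hcase ⟨i, hi, not_lt.1 h⟩
        set t : Fin n → ℕ := fun i => if a i = 0 then 0 else γ0 i with ht
        have htT : t ∈ T := by
          rw [hT, Fintype.mem_piFinset]
          intro i
          rw [Finset.mem_range, ht]
          simp only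
          split_ifs with h
          · exact Nat.ceil_pos.2 (by linarith)
          · have h1 := hcase' i (Nat.pos_of_ne_zero h)
            have h2 : (γ0 i : ℝ) < w₀ := by linarith
            exact Nat.lt_ceil.2 h2
        have hA : ((fac (fun i => if a i = 0 then γ0 i else 0) : ℕ) : ℂ) ≠ 0 := by
          exact_mod_cast (hfac _).ne'
        have hsp : ∀ k, (((fac (fun i => γ0 i + k * a i) : ℕ) : ℝ) : ℂ) =
            ((fac (fun i => if a i = 0 then γ0 i else 0) : ℕ) : ℂ) *
              (((fac (fun i => t i + k * a i) : ℕ) : ℝ) : ℂ) := by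
          intro k
          rw [fac_split a γ0 k]
          push_cast
          rfl
        have h1 := hRD t (b γ0) (fun k => g (fun i => γ0 i + k * a i)) (hbDec γ0) (hray γ0)
          (fun k => by
            apply mul_left_cancel₀ hA
            have e := hbeq γ0 k
            simp only [hsp] at e
            rw [Finset.mul_sum, ← mul_assoc, ← e]
            exact Finset.sum_congr rfl fun j _ => by ring)
          (M' t / σ ^ (∑ i, γ0 i))
          (hgb (max σ (R t)) σ (R t) (M' t) hσ1 (le_max_left _ _) (hR t).le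
            ((le_max_right _ _).trans (hSle _ (hσ1.trans (le_max_left _ _)))) (hM' t) γ0) k
        rw [mul_div_assoc', le_div_iff₀ hσp] at h1
        have h2 : D t * M' t ≤ ∑ t ∈ T, D t * M' t :=
          Finset.single_le_sum (f := fun t => D t * M' t)
            (fun t _ => mul_nonneg (hD t) (hM'0 t)) htT
        linarith
    refine ⟨C * M1 + ∑ t ∈ T, D t * M' t, fun α => ?_⟩
    refine le_trans ?_ (key (B α) (K α))
    have h1 : ρ ^ (∑ i, α i) ≤ σ ^ (∑ i, α i) := pow_le_pow_left₀ hρ.le (le_max_left _ _) _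
    have h2 : ∑ i, α i = ∑ i, (B α i + K α * a i) := Finset.sum_congr rfl fun i _ => hB1 α i
    have h3 : σ ^ (∑ i, α i) = σ ^ (∑ i, B α i) * τ ^ (K α) := by rw [h2, hpow]
    calc ‖b (B α) (K α)‖ * ρ ^ (∑ i, α i) ≤ ‖b (B α) (K α)‖ * σ ^ (∑ i, α i) :=
          mul_le_mul_of_nonneg_left h1 (norm_nonneg _)
      _ = ‖b (B α) (K α)‖ * τ ^ (K α) * σ ^ (∑ i, B α i) := by rw [h3]; ring
  · intro β
    have h1 := sum_mono a ha N q P hP
      (fun δ => (fac δ : ℂ) * mulc P (fun α => b (B α) (K α)) δ) β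
    refine h1.trans ?_
    have h2 := hbeq (B β) (K β)
    have hβ : (fun i => B β i + K β * a i) = β := funext fun i => (hB1 β i).symm
    rw [hβ] at h2
    have h3 : (((fac β : ℕ) : ℝ) : ℂ) = (fac β : ℂ) := by push_cast; rfl
    rw [h3] at h2
    rw [← h2]
    refine Finset.sum_congr rfl fun j _ => ?_
    congr 1
    rw [mulc_ray a ha N q P hP B K hB1 hB2 hB3 b]
    rw [(hB3 β j).1, (hB3 β j).2]
    have h4 : (fun i => β i + j * a i) = (fun i => B β i + (K β + j) * a i) := by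
      funext i
      have := hB1 β i
      rw [add_mul]
      linarith
    rw [h4]
    push_cast
    rfl

/-! ### kSd -/

theorem kSd_ser_of_dec_geom (r : ℝ) (h0 : 0 ≤ r) (h1 : r < 1) (n : ℕ) :
    Summable (fun α : Fin n → ℕ => ∏ i, r ^ α i) := by
  induction n with
  | zero => exact Summable.of_finite
  | succ n ih =>
    have hm : Summable (fun p : ℕ × (Fin n → ℕ) => r ^ p.1 * ∏ i, r ^ p.2 i) :=
      Summable.mul_of_nonneg (f := fun k : ℕ => r ^ k) (g := fun α : Fin n → ℕ => ∏ i, r ^ α i)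
        (summable_geometric_of_lt_one h0 h1) ih (fun k => pow_nonneg h0 k)
        (fun α => Finset.prod_nonneg fun i _ => pow_nonneg h0 _)
    have he := (Fin.consEquiv (fun _ : Fin (n + 1) => ℕ)).summable_iff
      (f := fun α : Fin (n + 1) → ℕ => ∏ i, r ^ α i)
    refine he.mp ?_
    refine hm.congr ?_
    intro p
    show r ^ p.1 * ∏ i, r ^ p.2 i = ∏ i, r ^ (Fin.cons (α := fun _ => ℕ) p.1 p.2 : Fin (n + 1) → ℕ) i
    rw [Fin.prod_univ_succ]
    simp only [Fin.cons_zero, Fin.cons_succ]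

theorem ser_of_dec {n : ℕ} (c : (Fin n → ℕ) → ℂ) (hc : DecN c) :
    ∃ f : (Fin n → ℂ) → ℂ, Ser c f := by
  refine ⟨fun z => ∑' α : Fin n → ℕ, c α * ∏ i, z i ^ α i, fun z => Summable.hasSum ?_⟩
  obtain ⟨r, hr⟩ : ∃ r : ℝ, r = 1 + ∑ i, ‖z i‖ := ⟨_, rfl⟩
  have hr1 : 1 ≤ r := by
    rw [hr]
    have : 0 ≤ ∑ i, ‖z i‖ := Finset.sum_nonneg fun i _ => norm_nonneg _
    linarith
  have hzr : ∀ i, ‖z i‖ ≤ r := by
    intro i
    have := Finset.single_le_sum (f := fun i => ‖z i‖) (fun i _ => norm_nonneg _) (Finset.mem_univ i)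
    rw [hr]
    linarith
  obtain ⟨M, hM⟩ := hc (2 * r) (by linarith)
  refine Summable.of_norm_bounded (g := fun α : Fin n → ℕ => M * ∏ i, (1 / 2 : ℝ) ^ α i)
    ((kSd_ser_of_dec_geom (1 / 2) (by norm_num) (by norm_num) n).mul_left M) ?_
  intro α
  have e1 : ‖c α * ∏ i, z i ^ α i‖ ≤ ‖c α‖ * r ^ (∑ i, α i) := by
    rw [norm_mul, norm_prod]
    apply mul_le_mul_of_nonneg_left _ (norm_nonneg _)
    rw [← Finset.prod_pow_eq_pow_sum]
    apply Finset.prod_le_prod (fun i _ => norm_nonneg _)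
    intro i _
    rw [norm_pow]
    exact pow_le_pow_left₀ (norm_nonneg _) (hzr i) _
  have e2 := hM α
  rw [mul_pow] at e2
  have e3 : ∏ i, (1 / 2 : ℝ) ^ α i = (1 / 2 : ℝ) ^ (∑ i, α i) := Finset.prod_pow_eq_pow_sum _ _ _
  rw [e3]
  refine e1.trans ?_
  rw [one_div, inv_pow, ← div_eq_mul_inv, le_div_iff₀ (by positivity)]
  calc ‖c α‖ * r ^ (∑ i, α i) * 2 ^ (∑ i, α i) = ‖c α‖ * (2 ^ (∑ i, α i) * r ^ (∑ i, α i)) := by ring
    _ ≤ M := e2

/-! ### kTs -/

theorem tp_ser {n : ℕ} (P : MvPolynomial (Fin n) ℂ) (c : (Fin n → ℕ) → ℂ)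
    (f : (Fin n → ℂ) → ℂ) (h : Ser c f) :
    Ser (fun β => ∑ m ∈ P.support, (starRingEnd ℂ) (P.coeff m) *
      ((fac (fun i => β i + m i) : ℂ) / (fac β : ℂ) * mulc P c (fun i => β i + m i)))
      (Tmap P f) := by
  intro z
  have h1 : ∀ m ∈ P.support, HasSum (fun β : Fin n → ℕ => (starRingEnd ℂ) (P.coeff m) *
      (((fac (fun i => β i + m i) : ℂ) / (fac β : ℂ) * mulc P c (fun i => β i + m i)) *
        ∏ i, z i ^ β i)) ((starRingEnd ℂ) (P.coeff m) *
          dpow m (fun w : Fin n → ℂ => MvPolynomial.eval w P * f w) z) := fun m _ =>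
    ((ser_dpow m (mulc P c) _ (ser_mul P c f h)) z).mul_left _
  have h2 := hasSum_sum h1
  have h3 : (fun β : Fin n → ℕ => (∑ m ∈ P.support, (starRingEnd ℂ) (P.coeff m) *
      ((fac (fun i => β i + m i) : ℂ) / (fac β : ℂ) * mulc P c (fun i => β i + m i))) *
        ∏ i, z i ^ β i) = fun β => ∑ m ∈ P.support, (starRingEnd ℂ) (P.coeff m) *
      (((fac (fun i => β i + m i) : ℂ) / (fac β : ℂ) * mulc P c (fun i => β i + m i)) *
        ∏ i, z i ^ β i) := by
    funext β
    rw [Finset.sum_mul]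
    exact Finset.sum_congr rfl fun m _ => by ring
  show HasSum (fun β : Fin n → ℕ => (∑ m ∈ P.support, (starRingEnd ℂ) (P.coeff m) *
      ((fac (fun i => β i + m i) : ℂ) / (fac β : ℂ) * mulc P c (fun i => β i + m i))) *
        ∏ i, z i ^ β i) (Tmap P f z)
  rw [h3]
  exact h2

theorem tp_diff {n : ℕ} (P : MvPolynomial (Fin n) ℂ) (f : (Fin n → ℂ) → ℂ)
    (hf : Differentiable ℂ f) : Differentiable ℂ (Tmap P f) := by
  obtain ⟨c, _, hc⟩ := taylor f hf
  exact ser_diff _ _ (tp_ser P c f hc)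

/-! ### lTt -/

theorem tp_surj2 {n : ℕ} (a : Fin n →₀ ℕ) (ha : a ≠ 0) (N : ℕ) (q : ℕ → ℂ)
    (P : MvPolynomial (Fin n) ℂ)
    (hP : P = ∑ j ∈ Finset.range (N + 1), MvPolynomial.monomial (j • a) (q j)) (hP0 : P ≠ 0)
    (g : (Fin n → ℂ) → ℂ) (hg : Differentiable ℂ g) :
    ∃ f : (Fin n → ℂ) → ℂ, Differentiable ℂ f ∧ Tmap P f = g := by
  classical
  have hex : ∃ j, j ≤ N ∧ q j ≠ 0 := by
    by_contra hcon
    push Not at hcon
    apply hP0
    rw [hP]
    refine Finset.sum_eq_zero (fun j hj => ?_)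
    rw [hcon j (by rw [Finset.mem_range] at hj; omega), MvPolynomial.monomial_zero]
  obtain ⟨j0, hj0, hqj0⟩ := hex
  set N' := Nat.findGreatest (fun j => q j ≠ 0) N with hN'
  have hqN' : q N' ≠ 0 := Nat.findGreatest_spec (P := fun j => q j ≠ 0) hj0 hqj0
  have hN'N : N' ≤ N := Nat.findGreatest_le N
  have hP' : P = ∑ j ∈ Finset.range (N' + 1), MvPolynomial.monomial (j • a) (q j) := by
    rw [hP]
    symm
    apply Finset.sum_subset
    · intro j hj
      rw [Finset.mem_range] at hj ⊢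
      omega
    · intro j hj hj2
      rw [Finset.mem_range] at hj hj2
      have h1 : q j = 0 := by
        by_contra h2
        exact (Nat.findGreatest_is_greatest (P := fun j => q j ≠ 0) (n := N) (k := j)
          (by rw [← hN']; omega) (by omega)) h2
      rw [h1, MvPolynomial.monomial_zero]
  obtain ⟨cg, hcg, hser⟩ := taylor g hg
  have hdec : DecN cg := by
    intro ρ hρ
    obtain ⟨M, hM⟩ := (isCompact_closedBall (0 : Fin n → ℂ) ρ).exists_bound_of_continuousOn
      hg.continuous.continuousOn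
    exact ⟨M, hcg ρ M hρ (fun z hz => hM z (by simpa using hz))⟩
  obtain ⟨c, hc, hcβ⟩ := mono_surj2 a ha N' q hqN' P hP' cg hdec
  obtain ⟨f, hf⟩ := ser_of_dec c hc
  refine ⟨f, ser_diff c f hf, ?_⟩
  funext z
  have h1 := tp_ser P c f hf z
  have h2 := hser z
  have h3 : (fun α : Fin n → ℕ => (∑ m ∈ P.support, (starRingEnd ℂ) (P.coeff m) *
      ((fac (fun i => α i + m i) : ℂ) / (fac α : ℂ) * mulc P c (fun i => α i + m i))) *
      ∏ i, z i ^ α i) = fun α : Fin n → ℕ => cg α * ∏ i, z i ^ α i := by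
    funext β
    congr 1
    have hfac : (fac β : ℂ) ≠ 0 := by
      have : fac β ≠ 0 := Finset.prod_ne_zero_iff.2 (fun i _ => Nat.factorial_ne_zero _)
      exact_mod_cast this
    have h4 : ∑ m ∈ P.support, (starRingEnd ℂ) (P.coeff m) *
        ((fac (fun i => β i + m i) : ℂ) / (fac β : ℂ) * mulc P c (fun i => β i + m i)) =
        (∑ m ∈ P.support, (starRingEnd ℂ) (P.coeff m) *
        ((fac (fun i => β i + m i) : ℂ) * mulc P c (fun i => β i + m i))) / (fac β : ℂ) := by
      rw [Finset.sum_div]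
      refine Finset.sum_congr rfl (fun m _ => ?_)
      ring
    rw [h4, hcβ β]
    field_simp
  have h5 : HasSum (fun α : Fin n → ℕ => cg α * ∏ i, z i ^ α i) (Tmap P f z) := by
    rw [← h3]
    exact h1
  exact h5.unique h2

theorem one_var (P : MvPolynomial (Fin 1) ℂ) :
    P = ∑ j ∈ Finset.range (P.totalDegree + 1),
      MvPolynomial.monomial (j • (Finsupp.single 0 1 : Fin 1 →₀ ℕ))
        (P.coeff (Finsupp.single 0 j)) := by
  ext m
  have hm : m = Finsupp.single 0 (m 0) := by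
    refine Finsupp.ext fun i => ?_
    have : i = 0 := Subsingleton.elim _ _
    subst this
    simp
  rw [MvPolynomial.coeff_sum]
  simp only [MvPolynomial.coeff_monomial, Finsupp.smul_single, smul_eq_mul, mul_one]
  by_cases h : m 0 ∈ Finset.range (P.totalDegree + 1)
  · rw [Finset.sum_eq_single (m 0)]
    · rw [← hm]; simp
    · intro j _ hj
      rw [if_neg]
      intro hc
      apply hj
      rw [← hc]; simp
    · intro h'; exact absurd h h'
  · rw [Finset.sum_eq_zero]
    · apply MvPolynomial.coeff_eq_zero_of_totalDegree_lt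
      have h1 : P.totalDegree < m 0 := by
        simp only [Finset.mem_range, not_lt] at h
        omega
      refine lt_of_lt_of_le h1 ?_
      by_cases h0 : m 0 = 0
      · omega
      · exact Finset.single_le_sum (f := fun i => m i) (fun _ _ => Nat.zero_le _)
          (Finsupp.mem_support_iff.2 h0)
    · intro j hj
      rw [if_neg]
      intro hc
      apply h
      rw [← hc]
      simpa using hj

/-- entire functions on `ℂ^n` -/
def Entire (n : ℕ) : Set ((Fin n → ℂ) → ℂ) := {f | Differentiable ℂ f}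

/-- If `P ≠ 0` is a polynomial in one monomial, `P(z) = ∑ q_j (z^a)^j` with `a ≠ 0`, then the map
`T_P : f ↦ P*(D)(P f)` is a bijection of the entire functions onto the entire functions. -/
theorem bij {n : ℕ} (a : Fin n →₀ ℕ) (ha : a ≠ 0) (N : ℕ) (q : ℕ → ℂ)
    (P : MvPolynomial (Fin n) ℂ)
    (hP : P = ∑ j ∈ Finset.range (N + 1), MvPolynomial.monomial (j • a) (q j)) (hP0 : P ≠ 0) :
    Set.BijOn (Tmap P) (Entire n) (Entire n) := by
  refine ⟨fun f hf => tp_diff P f hf, fun f hf g hg h => ?_, fun g hg => ?_⟩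
  · have h1 := result_mono a ha N q P hP hP0 (fun z => f z - g z) (Differentiable.sub hf hg)
      (tp_sub P f g hf hg h)
    funext z
    exact sub_eq_zero.1 (h1 z)
  · obtain ⟨f, hf, h⟩ := tp_surj2 a ha N q P hP hP0 g hg
    exact ⟨f, hf, h⟩

/-- (1) For `n = 1` and every `P ≠ 0` the map `T_P : f ↦ P*(D)(P f)` is a bijection of the entire
functions onto the entire functions. (2) For every `n` the same holds for all `P ≠ 0` which are
polynomials in one monomial `z^a`, `a ≠ 0`: `P(z) = ∑ q_j (z^a)^j`. -/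
theorem result :
    (∀ P : MvPolynomial (Fin 1) ℂ, P ≠ 0 → Set.BijOn (Tmap P) (Entire 1) (Entire 1)) ∧
    (∀ (n : ℕ) (a : Fin n →₀ ℕ) (N : ℕ) (q : ℕ → ℂ) (P : MvPolynomial (Fin n) ℂ), a ≠ 0 →
      P = ∑ j ∈ Finset.range (N + 1), MvPolynomial.monomial (j • a) (q j) → P ≠ 0 →
      Set.BijOn (Tmap P) (Entire n) (Entire n)) := by
  refine ⟨fun P hP0 => ?_, fun n a N q P ha hP hP0 => bij a ha N q P hP hP0⟩
  refine bij (Finsupp.single 0 1) (fun h => ?_) _ _ P (one_var P) hP0
  have := DFunLike.congr_fun h 0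
  simp at this

end Pool.Agent.Results.MP_fbd3e7_an.OneMonomial
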